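import Pool.Agent.SP45.Gsp

/-!
# The Cantor space of the quotient models
-/

namespace Pool.Agent.SP45

open Classical Set Pool.Agent Pool.Agent.LadderTree Pool.Agent.Forcing Pool.Agent.MAx
open Pool.Agent.BVM (BSet UF eqv memv chk Congr le_of_uf Disc OPair FunOn op on onT)
open Pool.Agent.OG45

/-- the initial segment of `x` of length `i`, as a list in reversed order -/
def prb (x : ℕ → Bool) : ℕ → List Bool
  | 0 => []
  | i + 1 => x i :: prb x i

theorem length_prb (x : ℕ → Bool) (i : ℕ) : (prb x i).length = i := by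
  induction i with
  | zero => rfl
  | succ i ih => rw [prb, List.length_cons, ih]

theorem prb_eq_iff {y z : ℕ → Bool} {i : ℕ} : prb y i = prb z i ↔ ∀ j < i, y j = z j := by
  induction i with
  | zero => simp [prb]
  | succ i ih =>
    rw [prb, prb, List.cons.injEq, ih]
    constructor
    · rintro ⟨h1, h2⟩ j hj
      rcases (Nat.lt_succ_iff.1 hj).lt_or_eq with h | h
      · exact h2 j h
      · rw [h]; exact h1
    · exact fun h => ⟨h i (Nat.lt_succ_self i), fun j hj => h j (hj.trans (Nat.lt_succ_self i))⟩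

/-- the set of all `x` with the initial segment `t` -/
def cyb (t : List Bool) : Set (ℕ → Bool) := {y | prb y t.length = t}

theorem mem_cyb {y : ℕ → Bool} {t : List Bool} : y ∈ cyb t ↔ prb y t.length = t := Iff.rfl

theorem mem_cyb_pre {y z : ℕ → Bool} {i : ℕ} : z ∈ cyb (prb y i) ↔ prb z i = prb y i := by
  rw [mem_cyb, length_prb]

theorem self_memb (y : ℕ → Bool) (i : ℕ) : y ∈ cyb (prb y i) := mem_cyb_pre.2 rfl

theorem cyb_nil : cyb [] = univ := eq_univ_of_forall fun _ => rfl

theorem mem_cyb_cons {y : ℕ → Bool} {k : Bool} {t : List Bool} :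
    y ∈ cyb (k :: t) ↔ y t.length = k ∧ y ∈ cyb t := by
  rw [mem_cyb, List.length_cons, prb, List.cons.injEq, mem_cyb]

theorem cyb_anti {y : ℕ → Bool} {i j : ℕ} (h : i ≤ j) : cyb (prb y j) ⊆ cyb (prb y i) := by
  intro z hz
  rw [mem_cyb_pre, prb_eq_iff] at hz ⊢
  exact fun k hk => hz k (hk.trans_le h)

theorem isOpen_cyb (t : List Bool) : _root_.IsOpen (cyb t) := by
  induction t with
  | nil => rw [cyb_nil]; exact isOpen_univ
  | cons k t ih =>
    have : cyb (k :: t) = (fun y : ℕ → Bool => y t.length) ⁻¹' {k} ∩ cyb t := by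
      ext y
      rw [mem_cyb_cons]
      exact Iff.rfl
    rw [this]
    exact ((isOpen_discrete {k}).preimage (continuous_apply t.length)).inter ih

theorem gbase_cyb : GBase cyb where
  cov t := ⟨[], by rw [cyb_nil]; exact mem_univ t⟩
  inter s s' t hs hs' := by
    refine ⟨prb t (max s.length s'.length), self_memb _ _, ?_, ?_⟩
    · rw [mem_cyb] at hs
      rw [← hs, length_prb]
      exact cyb_anti (le_max_left _ _)
    · rw [mem_cyb] at hs'
      rw [← hs', length_prb]
      exact cyb_anti (le_max_right _ _)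
  t1 t t' h := by
    obtain ⟨i, hi⟩ := Function.ne_iff.1 h
    refine ⟨prb t (i + 1), self_memb _ _, fun h' => hi ?_⟩
    rw [mem_cyb_pre, prb_eq_iff] at h'
    exact (h' i (Nat.lt_succ_self i)).symm
  reg s t hs := by
    refine ⟨s, hs, fun t' ht' => ⟨prb t' s.length, self_memb _ _, fun z hz hz' => ht' ?_⟩⟩
    rw [mem_cyb_pre] at hz
    rw [mem_cyb] at hz' ⊢
    rw [← hz, hz']

section

variable {P : Type} [Preorder P]

/-- names of the elements of the Cantor space -/
noncomputable def xn {B : Type} [CompleteBooleanAlgebra B] (x : ℕ → Bool) : BSet B :=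
  (exists_disc B (ℕ → Bool)).choose x

theorem disc_xn {B : Type} [CompleteBooleanAlgebra B] : Disc (xn : (ℕ → Bool) → BSet B) :=
  (exists_disc B (ℕ → Bool)).choose_spec

/-- the name of the Cantor space -/
noncomputable def XN (P : Type) [Preorder P] : BSet (RO P) := spN xn fun _ => ⊤

/-- the name of its base -/
noncomputable def XB (P : Type) [Preorder P] : BSet (RO P) := bsN xn (fun _ => ⊤) cyb

theorem space_X (F : GG P) : Space (In F) (nm F (onT ℕ)) (nm F (XN P)) (nm F (XB P)) :=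
  gbase_cyb.space disc_xn F

/-- **Compactness of the Cantor space.** -/
theorem compact_X (hσ : SigmaClosed P) (F : GG P) :
    Compact (In F) (nm F (onT ℕ)) (nm F (XN P)) (nm F (XB P)) := by
  intro C hC1 hC2
  obtain ⟨C, rfl⟩ := exists_nm C
  have hR1 : RpP fun F : GG P =>
      (∀ U, In F U (nm F C) → SP45.IsOpen (In F) (nm F (XN P)) (nm F (XB P)) U) ∧
      ∀ x, In F x (nm F (XN P)) → ∃ U, In F U (nm F C) ∧ In F x U := by
    repeat' (first
      | exact RpP.mem _ _ | exact rpIsOpen _ _ _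
      | refine RpP.and ?_ ?_ | refine RpP.ex fun _ => ?_ | refine RpP.all fun _ => ?_
      | refine RpP.imp ?_ ?_)
  have hR2 : RpP fun F : GG P => ∃ f, OG45.Finite (In F) (nm F (onT ℕ)) f ∧
      Sub (In F) f (nm F C) ∧ ∀ x, In F x (nm F (XN P)) → ∃ U, In F U f ∧ In F x U := by
    repeat' (first
      | exact RpP.mem _ _ | exact rpFinite _ _ | exact rpSub _ _
      | refine RpP.and ?_ ?_ | refine RpP.ex fun _ => ?_ | refine RpP.all fun _ => ?_
      | refine RpP.imp ?_ ?_)
  refine gg_imp hR1 hR2 (fun q hq => Fc.dense hR2 fun p hp => ?_) F ⟨hC1, hC2⟩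
  have hR3 : ∀ s : List Bool, ∀ U : BSet (RO P), RpP fun F : GG P => In F (nm F U) (nm F C) ∧
      Sub (In F) (nm F (trN xn (fun _ => ⊤) (cyb s))) (nm F U) := fun s U =>
    (RpP.mem U C).and (rpSub _ U)
  obtain ⟨r, hr, J, hJ⟩ := decide_all hσ p (ι := List Bool) (A := fun s F =>
    ∃ U, In F U (nm F C) ∧ Sub (In F) (nm F (trN xn (fun _ => ⊤) (cyb s))) U)
    (fun s => RpP.ex (hR3 s))
  -- every point is in a cylinder which is contained in a member
  have hcov : ∀ x : ℕ → Bool, ∃ s ∈ J, x ∈ cyb s := by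
    intro x
    obtain ⟨U, hU⟩ := Fc.name (q := r) (A := fun F U => In F U (nm F C) ∧ In F (nm F (xn x)) U)
      (fun U => (RpP.mem U C).and (RpP.mem _ U)) (fun F hF =>
        (hq.mono (hr.trans hp) F hF).2 _ ((in_sp disc_xn).2 F.1.top))
    obtain ⟨V, hV⟩ := Fc.name (q := r) (A := fun F V => In F V (nm F (XB P)) ∧
      In F (nm F (xn x)) V ∧ Sub (In F) V (nm F U)) (fun V => (RpP.mem V _).and ((RpP.mem _ V).and
        (rpSub V U))) (fun F hF => ((hq.mono (hr.trans hp) F hF).1 _ (hU F hF).1).2 _ (hU F hF).2)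
    obtain ⟨r1, hr1, s, hs⟩ := Fc.chk (x := fun s => trN xn (fun _ => ⊤) (cyb s)) (y := V)
      (q := r) (fun F hF => (hV F hF).1)
    obtain ⟨F, hF⟩ := exists_gg r1
    have hFr : F.1.U (pt r) := F.1.mono (pt_mono hr1) hF
    have e : nm F V = nm F (trN xn (fun _ => ⊤) (cyb s)) := hs F hF
    have h1 := (hV F hFr).2
    rw [e, in_tr disc_xn] at h1
    exact ⟨s, (hJ s F hFr).1 ⟨_, (hU F hFr).1, h1.2⟩, h1.1.2⟩
  obtain ⟨t, ht⟩ := (isCompact_univ (X := ℕ → Bool)).elim_finite_subcover
    (fun s : J => cyb s.1) (fun s => isOpen_cyb s.1) (fun x _ => by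
      obtain ⟨s, hs, hx⟩ := hcov x
      exact mem_iUnion.2 ⟨⟨s, hs⟩, hx⟩)
  have hU : ∀ s : J, ∃ U : BSet (RO P), Fc r fun F => In F (nm F U) (nm F C) ∧
      Sub (In F) (nm F (trN xn (fun _ => ⊤) (cyb s.1))) (nm F U) := fun s =>
    Fc.name (A := fun F U => In F U (nm F C) ∧
      Sub (In F) (nm F (trN xn (fun _ => ⊤) (cyb s.1))) U) (hR3 s.1)
      (fun F hF => (hJ s.1 F hF).2 s.2)
  choose U hU using hU
  refine ⟨r, hr, fun F hF => ⟨nm F (chk fun s : t => U s.1), finite_chk _ F, fun u hu => ?_,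
    fun x hx => ?_⟩⟩
  · exact fc_chk (q := r) (x := fun s : t => U s.1) (A := fun F u => In F u (nm F C))
      (fun u => RpP.mem u C) (fun F hF s => (hU s.1 F hF).1) hF hu
  · refine fc_tr disc_xn (q := r) (A := fun F x => ∃ u, In F u (nm F (chk fun s : t => U s.1)) ∧
      In F x u) (fun x => RpP.ex fun u => (RpP.mem u _).and (RpP.mem x u))
      (fun F hF a _ _ => ?_) hF hx
    obtain ⟨s, hs, ha⟩ := mem_iUnion₂.1 (ht (mem_univ a))
    exact ⟨nm F (U s), In_chk (fun s : t => U s.1) ⟨s, hs⟩ F,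
      (hU s F hF).2 _ ((in_tr disc_xn).2 ⟨F.1.top, ha⟩)⟩

/-! ### Products -/

variable {S T : Type} {pn : S → BSet (RO P)} {pn' : T → BSet (RO P)} {g : S → RO P}
  {g' : T → RO P}

/-- names of pairs -/
noncomputable def prn (pn : S → BSet (RO P)) (pn' : T → BSet (RO P)) (p : S × T) :
    BSet (RO P) := op (pn p.1) (pn' p.2)

/-- the values of pairs -/
noncomputable def prg (g : S → RO P) (g' : T → RO P) (p : S × T) : RO P := g p.1 ⊓ g' p.2

theorem disc_prn (hd : Disc pn) (hd' : Disc pn') : Disc (prn pn pn') := hd.op hd'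

theorem isProd_tr (hd : Disc pn) (hd' : Disc pn') (U : Set S) (V : Set T) (F : GG P) :
    IsProd (In F) (nm F (trN (prn pn pn') (prg g g') (U ×ˢ V))) (nm F (trN pn g U))
      (nm F (trN pn' g' V)) := by
  intro p
  constructor
  · intro hp
    refine all_tr (disc_prn hd hd') (A := fun F p => ∃ x y, In F x (nm F (trN pn g U)) ∧
      In F y (nm F (trN pn' g' V)) ∧ OPair (In F) p x y)
      (fun p => RpP.ex fun x => RpP.ex fun y => (RpP.mem x _).and ((RpP.mem y _).and
        (RpP.opair p x y))) (fun F t ht hg => ?_) hp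
    have hg' : F.1.U (g t.1 ⊓ g' t.2) := hg
    rw [F.1.inf_iff] at hg'
    exact ⟨nm F (pn t.1), nm F (pn' t.2), (in_tr hd).2 ⟨hg'.1, ht.1⟩,
      (in_tr hd').2 ⟨hg'.2, ht.2⟩, OPair_nm.2 rfl⟩
  · rintro ⟨x, y, hx, hy, hp⟩
    refine all_tr hd (A := fun F x => ∀ y, In F y (nm F (trN pn' g' V)) → ∀ p,
      OPair (In F) p x y → In F p (nm F (trN (prn pn pn') (prg g g') (U ×ˢ V))))
      (fun x => RpP.all fun y => (RpP.mem y _).imp (RpP.all fun p => (RpP.opair p x y).imp
        (RpP.mem p _))) (fun F s hs hg y hy => ?_) hx y hy p hp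
    refine all_tr hd' (A := fun F y => F.1.U (g s) → ∀ p,
      OPair (In F) p (nm F (pn s)) y → In F p (nm F (trN (prn pn pn') (prg g g') (U ×ˢ V))))
      (fun y => (RpP.val _).imp (RpP.all fun p => (RpP.opair p _ y).imp
        (RpP.mem p _))) (fun F t ht hg' hg p hp => ?_) hy hg
    rw [OPair_nm] at hp
    rw [hp]
    refine (in_tr (disc_prn hd hd') (t := (s, t))).2 ⟨?_, hs, ht⟩
    show F.1.U (g s ⊓ g' t)
    rw [F.1.inf_iff]
    exact ⟨hg, hg'⟩

theorem isProd_eq {F : GG P} {p p' x y : Md F} (h : IsProd (In F) p x y)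
    (h' : IsProd (In F) p' x y) : p = p' := ext_nm fun z => (h z).trans (h' z).symm

theorem prodSpace (hd : Disc pn) (hd' : Disc pn') {I J : Type} (β : I → Set S) (γ : J → Set T)
    (F : GG P) : ProdSpace (In F) (nm F (spN (prn pn pn') (prg g g')))
      (nm F (bsN (prn pn pn') (prg g g') fun i : I × J => β i.1 ×ˢ γ i.2))
      (nm F (spN pn g)) (nm F (bsN pn g β)) (nm F (spN pn' g')) (nm F (bsN pn' g' γ)) := by
  constructor
  · have := isProd_tr (g := g) (g' := g') hd hd' univ univ F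
    rw [univ_prod_univ] at this
    exact this
  · intro W
    constructor
    · intro hW
      refine all_chk (b := (⊤ : RO P)) (A := fun F W => ∃ U V, In F U (nm F (bsN pn g β)) ∧
        In F V (nm F (bsN pn' g' γ)) ∧ IsProd (In F) W U V)
        (fun W => RpP.ex fun U => RpP.ex fun V => (RpP.mem U _).and ((RpP.mem V _).and
          (rpProd W U V))) (fun F i => ?_) F W hW
      exact ⟨_, _, In_chk _ i.1 F, In_chk _ i.2 F, isProd_tr hd hd' _ _ F⟩
    · rintro ⟨U, V, hU, hV, h⟩
      refine all_chk (b := (⊤ : RO P)) (A := fun F U => ∀ V, In F V (nm F (bsN pn' g' γ)) →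
        ∀ W, IsProd (In F) W U V →
          In F W (nm F (bsN (prn pn pn') (prg g g') fun i : I × J => β i.1 ×ˢ γ i.2)))
        (fun U => RpP.all fun V => (RpP.mem V _).imp (RpP.all fun W => (rpProd W U V).imp
          (RpP.mem W _))) (fun F i V hV => ?_) F U hU V hV W h
      refine all_chk (b := (⊤ : RO P)) (A := fun F V =>
        ∀ W, IsProd (In F) W (nm F (trN pn g (β i))) V →
          In F W (nm F (bsN (prn pn pn') (prg g g') fun i : I × J => β i.1 ×ˢ γ i.2)))
        (fun V => (RpP.all fun W => (rpProd W _ V).imp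
          (RpP.mem W _))) (fun F j W h => ?_) F V hV
      rw [isProd_eq h (isProd_tr hd hd' (β i) (γ j) F)]
      exact In_chk (fun i : I × J => trN (prn pn pn') (prg g g') (β i.1 ×ˢ γ i.2)) (i, j) F

end

end Pool.Agent.SP45
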