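import Pool.Agent.H43.Split1

/-!
# Branching systems on the tree of finite sequences

The combinatorics of the forcing notion: nodes are lists of natural numbers (the last entry comes
first), and a branching system `a` assigns an infinite set of natural numbers to each node.
-/

namespace Pool.Agent.SP45

open Set

/-- the initial segment of `y` of length `i`, as a list in reversed order -/
def pre (y : ℕ → ℕ) : ℕ → List ℕ
  | 0 => []
  | i + 1 => y i :: pre y i

@[simp] theorem pre_zero (y : ℕ → ℕ) : pre y 0 = [] := rfl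

@[simp] theorem pre_succ (y : ℕ → ℕ) (i : ℕ) : pre y (i + 1) = y i :: pre y i := rfl

@[simp] theorem length_pre (y : ℕ → ℕ) (i : ℕ) : (pre y i).length = i := by
  induction i with
  | zero => rfl
  | succ i ih => rw [pre_succ, List.length_cons, ih]

theorem pre_inj {y : ℕ → ℕ} {i j : ℕ} (h : pre y i = pre y j) : i = j := by
  rw [← length_pre y i, h, length_pre]

theorem pre_eq_iff {y z : ℕ → ℕ} {i : ℕ} : pre y i = pre z i ↔ ∀ j < i, y j = z j := by
  induction i with
  | zero => simp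
  | succ i ih =>
    rw [pre_succ, pre_succ, List.cons.injEq, ih]
    constructor
    · rintro ⟨h1, h2⟩ j hj
      rcases (Nat.lt_succ_iff.1 hj).lt_or_eq with h | h
      · exact h2 j h
      · rw [h]; exact h1
    · exact fun h => ⟨h i (Nat.lt_succ_self i), fun j hj => h j (hj.trans (Nat.lt_succ_self i))⟩

/-- the set of all `y` with the initial segment `t` -/
def cyl (t : List ℕ) : Set (ℕ → ℕ) := {y | pre y t.length = t}

theorem mem_cyl {y : ℕ → ℕ} {t : List ℕ} : y ∈ cyl t ↔ pre y t.length = t := Iff.rfl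

theorem mem_cyl_pre {y z : ℕ → ℕ} {i : ℕ} : z ∈ cyl (pre y i) ↔ pre z i = pre y i := by
  rw [mem_cyl, length_pre]

theorem self_mem (y : ℕ → ℕ) (i : ℕ) : y ∈ cyl (pre y i) := mem_cyl_pre.2 rfl

theorem cyl_nil : cyl [] = univ := eq_univ_of_forall fun _ => rfl

theorem mem_cyl_cons {y : ℕ → ℕ} {k : ℕ} {t : List ℕ} :
    y ∈ cyl (k :: t) ↔ y t.length = k ∧ y ∈ cyl t := by
  rw [mem_cyl, List.length_cons, pre_succ, List.cons.injEq, mem_cyl]

theorem cyl_nonempty (t : List ℕ) : (cyl t).Nonempty := by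
  induction t with
  | nil => exact ⟨0, rfl⟩
  | cons k t ih =>
    obtain ⟨y, hy⟩ := ih
    refine ⟨Function.update y t.length k, mem_cyl_cons.2 ⟨Function.update_self _ _ _, ?_⟩⟩
    rw [mem_cyl] at hy ⊢
    rw [← hy, length_pre, pre_eq_iff]
    intro j hj
    exact Function.update_of_ne hj.ne _ _

theorem cyl_anti {y : ℕ → ℕ} {i j : ℕ} (h : i ≤ j) : cyl (pre y j) ⊆ cyl (pre y i) := by
  intro z hz
  rw [mem_cyl_pre, pre_eq_iff] at hz ⊢
  exact fun k hk => hz k (hk.trans_le h)

/-- an open set of the Baire space -/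
def Op (W : Set (ℕ → ℕ)) : Prop := ∀ y ∈ W, ∃ i, cyl (pre y i) ⊆ W

/-- building a branch -/
theorem exists_path {R : List ℕ → Prop} {a : List ℕ → Set ℕ}
    (h : ∀ t, R t → ∃ k ∈ a t, R (k :: t)) {t : List ℕ} (ht : R t) :
    ∃ y ∈ cyl t, ∀ i, t.length ≤ i → y i ∈ a (pre y i) ∧ R (pre y i) := by
  choose! f hf1 hf2 using h
  obtain ⟨y0, hy0⟩ := cyl_nonempty t
  let s : ℕ → List ℕ := fun n => Nat.rec t (fun _ u => f u :: u) n
  have hs0 : s 0 = t := rfl
  have hs : ∀ n, s (n + 1) = f (s n) :: s n := fun n => rfl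
  have hR : ∀ n, R (s n) := by
    intro n
    induction n with
    | zero => exact ht
    | succ n ih => rw [hs]; exact hf2 _ ih
  let y : ℕ → ℕ := fun i => if i < t.length then y0 i else f (s (i - t.length))
  have hpre : ∀ n, pre y (t.length + n) = s n := by
    intro n
    induction n with
    | zero =>
      rw [hs0, Nat.add_zero]
      rw [mem_cyl] at hy0
      conv_rhs => rw [← hy0]
      rw [pre_eq_iff]
      intro j hj
      show (if j < t.length then y0 j else _) = y0 j
      rw [if_pos hj]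
    | succ n ih =>
      rw [← Nat.add_assoc, pre_succ, ih, hs]
      congr 1
      show (if t.length + n < t.length then _ else f (s (t.length + n - t.length))) = _
      rw [if_neg (by omega), Nat.add_sub_cancel_left]
  refine ⟨y, ?_, fun i hi => ?_⟩
  · rw [mem_cyl]
    exact hpre 0
  · obtain ⟨n, rfl⟩ := Nat.exists_eq_add_of_le hi
    rw [hpre]
    refine ⟨?_, hR n⟩
    have e : y (t.length + n) = f (s n) := by
      show (if t.length + n < t.length then _ else f (s (t.length + n - t.length))) = _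
      rw [if_neg (by omega), Nat.add_sub_cancel_left]
    rw [e]
    exact hf1 _ (hR n)

/-- the closure of a set of nodes: a node belongs to it if infinitely many of its children do -/
inductive Cl (a : List ℕ → Set ℕ) (E : Set (List ℕ)) : List ℕ → Prop
  | base {t : List ℕ} (h : t ∈ E) : Cl a E t
  | step {t : List ℕ} (K : Set ℕ) (hK : K.Infinite) (hKa : K ⊆ a t)
      (h : ∀ k ∈ K, Cl a E (k :: t)) : Cl a E t

theorem Cl.trans {a : List ℕ → Set ℕ} {E E' : Set (List ℕ)} (h : ∀ t ∈ E, Cl a E' t)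
    {t : List ℕ} (ht : Cl a E t) : Cl a E' t := by
  induction ht with
  | base ht => exact h _ ht
  | step K hK hKa _ ih => exact .step K hK hKa ih

theorem Cl.mono {a : List ℕ → Set ℕ} {E E' : Set (List ℕ)} (h : E ⊆ E')
    {t : List ℕ} (ht : Cl a E t) : Cl a E' t := ht.trans fun _ hs => .base (h hs)

/-- ranks -/
inductive Rk (a : List ℕ → Set ℕ) (E : Set (List ℕ)) : Ordinal.{0} → List ℕ → Prop
  | base {α : Ordinal.{0}} {t : List ℕ} (h : t ∈ E) : Rk a E α t
  | step {α : Ordinal.{0}} {t : List ℕ} (K : Set ℕ) (hK : K.Infinite) (hKa : K ⊆ a t)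
      (f : ℕ → Ordinal.{0}) (hf : ∀ k ∈ K, f k < α) (h : ∀ k ∈ K, Rk a E (f k) (k :: t)) :
      Rk a E α t

theorem Cl.rk {a : List ℕ → Set ℕ} {E : Set (List ℕ)} {t : List ℕ} (h : Cl a E t) :
    ∃ α, Rk a E α t := by
  induction h with
  | base h => exact ⟨0, .base h⟩
  | step K hK hKa _ ih =>
    choose! f hf using ih
    refine ⟨Order.succ (⨆ k, f k), .step K hK hKa f (fun k _ => ?_) hf⟩
    rw [Order.lt_succ_iff]
    exact Ordinal.le_iSup f k

/-- a positional strategy for reaching a set of nodes -/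
theorem exists_strategy {a : List ℕ → Set ℕ} (ha : ∀ t, (a t).Infinite) {E : Set (List ℕ)}
    (h : ∀ t, Cl a E t) : ∃ b : List ℕ → Set ℕ, (∀ t, b t ⊆ a t) ∧ (∀ t, (b t).Infinite) ∧
      ∀ (y : ℕ → ℕ) (i₀ : ℕ), (∀ i, i₀ ≤ i → y i ∈ b (pre y i)) → ∃ i, i₀ ≤ i ∧ pre y i ∈ E := by
  classical
  let ρ : List ℕ → Ordinal.{0} := fun t => sInf {α | Rk a E α t}
  have hρ : ∀ t, Rk a E (ρ t) t := fun t => csInf_mem (s := {α | Rk a E α t}) (h t).rk
  have hρ' : ∀ {α t}, Rk a E α t → ρ t ≤ α := fun h => csInf_le' h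
  refine ⟨fun t => if t ∈ E then a t else {k | k ∈ a t ∧ ρ (k :: t) < ρ t}, fun t => ?_,
    fun t => ?_, fun y i₀ hy => ?_⟩
  · by_cases ht : t ∈ E
    · simp only [ht, if_true]; exact subset_rfl
    · simp only [ht, if_false]; exact fun k hk => hk.1
  · by_cases ht : t ∈ E
    · simp only [ht, if_true]; exact ha t
    · simp only [ht, if_false]
      cases hρ t with
      | base h => exact absurd h ht
      | step K hK hKa f hf hk =>
        exact hK.mono fun k hkK => ⟨hKa hkK, (hρ' (hk k hkK)).trans_lt (hf k hkK)⟩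
  · by_contra hcon
    push Not at hcon
    have hdec : ∀ n, ρ (pre y (i₀ + (n + 1))) < ρ (pre y (i₀ + n)) := by
      intro n
      have h1 := hy (i₀ + n) (Nat.le_add_right _ _)
      have h2 := hcon (i₀ + n) (Nat.le_add_right _ _)
      simp only [h2, if_false] at h1
      exact h1.2
    obtain ⟨n, hn⟩ := WellFounded.not_rel_apply_succ (r := (· < ·))
      (fun n => ρ (pre y (i₀ + n)))
    exact hn (hdec n)

section

variable {a : List ℕ → Set ℕ} {W : ℕ → Set (ℕ → ℕ)}

/-- the indices `n` such that `W n` can be reached from `t` -/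
def Nn (a : List ℕ → Set ℕ) (W : ℕ → Set (ℕ → ℕ)) (t : List ℕ) : Set ℕ :=
  {n | Cl a {s | cyl s ⊆ W n} t}

/-- critical nodes -/
def Crit (a : List ℕ → Set ℕ) (W : ℕ → Set (ℕ → ℕ)) (t : List ℕ) : Prop :=
  ∃ K ⊆ a t, K.Infinite ∧ ∃ n : ℕ → ℕ, InjOn n K ∧ ∀ k ∈ K, n k ∈ Nn a W (k :: t)

theorem exists_inj {K : Set ℕ} (hK : K.Infinite) {f : ℕ → ℕ}
    (hf : ∀ n, {k | k ∈ K ∧ f k = n}.Finite) : ∃ K' ⊆ K, K'.Infinite ∧ InjOn f K' := by
  obtain ⟨K', hK', hb⟩ := exists_subset_bijOn K f
  refine ⟨K', hK', fun hfin => ?_, hb.injOn⟩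
  have h1 : (f '' K).Finite := by rw [← hb.image_eq]; exact hfin.image f
  refine hK ((h1.biUnion fun n _ => hf n).subset fun k hk => ?_)
  exact mem_biUnion (mem_image_of_mem f hk) ⟨hk, rfl⟩

/-- every node is in the closure of the set of all critical nodes and all nodes from which
infinitely many `W n` can be reached -/
theorem cl_crit (hW : ∀ n, Op (W n))
    (H : ∀ y : ℕ → ℕ, (∃ N, ∀ i, N ≤ i → y i ∈ a (pre y i)) → {n | y ∈ W n}.Infinite)
    (ha : ∀ t, (a t).Infinite) (t : List ℕ) :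
    Cl a {s | (Nn a W s).Infinite ∨ Crit a W s} t := by
  by_contra hcon
  set Q : Set (List ℕ) := {s | (Nn a W s).Infinite ∨ Crit a W s} with hQ
  have htf : (Nn a W t).Finite := by
    by_contra h
    exact hcon (.base (Or.inl h))
  obtain ⟨y, -, hy⟩ := exists_path (R := fun s => ¬ Cl a Q s ∧ Nn a W s ⊆ Nn a W t) (a := a)
    (fun s hs => by
      by_contra hno
      push Not at hno
      have h1 : {k | k ∈ a s ∧ Cl a Q (k :: s)}.Finite := by
        by_contra h
        exact hs.1 (.step _ h (fun k hk => hk.1) fun k hk => hk.2)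
      have h2 : {k | k ∈ a s ∧ ¬ Nn a W (k :: s) ⊆ Nn a W s}.Finite := by
        by_contra h
        have h3 : ∀ k : ℕ, ∃ n, (k ∈ a s ∧ ¬ Nn a W (k :: s) ⊆ Nn a W s) →
            n ∈ Nn a W (k :: s) ∧ n ∉ Nn a W s := by
          intro k
          by_cases hk : k ∈ a s ∧ ¬ Nn a W (k :: s) ⊆ Nn a W s
          · obtain ⟨n, hn⟩ := not_subset.1 hk.2
            exact ⟨n, fun _ => hn⟩
          · exact ⟨0, fun h => absurd h hk⟩
        choose n hn using h3
        obtain ⟨K, hK, hKi, hinj⟩ := exists_inj h (f := n) (fun m => by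
          by_cases hm : m ∈ Nn a W s
          · refine Set.finite_empty.subset ?_
            rintro k ⟨hk, rfl⟩
            exact absurd hm (hn k hk).2
          · refine Set.not_infinite.1 fun hinf => hm ?_
            refine Cl.step _ hinf (fun k hk => hk.1.1) fun k hk => ?_
            have h4 := (hn k hk.1).1
            rw [hk.2] at h4
            exact h4)
        exact hs.1 (.base (Or.inr ⟨K, fun k hk => (hK hk).1, hKi, n, hinj,
          fun k hk => (hn k (hK hk)).1⟩))
      refine ha s ((h1.union h2).subset fun k hk => ?_)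
      by_cases h3 : Cl a Q (k :: s)
      · exact Or.inl ⟨hk, h3⟩
      · exact Or.inr ⟨hk, fun h4 => hno k hk h3 (h4.trans hs.2)⟩) (t := t)
    ⟨hcon, subset_rfl⟩
  obtain ⟨n, hn, hnt⟩ := (H y ⟨t.length, fun i hi => (hy i hi).1⟩).exists_notMem_finite htf
  obtain ⟨i, hi⟩ := hW n y hn
  refine hnt ((hy (max i t.length) (le_max_right _ _)).2.2 (.base ?_))
  exact (cyl_anti (le_max_left _ _)).trans hi

/-- splitting countably many infinite sets -/
theorem split_countable {ι : Type} [Countable ι] (P : ι → Prop) (S : ι → Set ℕ)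
    (hS : ∀ i, P i → (S i).Infinite) : ∃ B : Set ℕ, ∀ i, P i →
      {j | j ∈ B ∧ j ∈ S i}.Infinite ∧ {j | j ∉ B ∧ j ∈ S i}.Infinite := by
  classical
  by_cases hι : Nonempty ι
  · obtain ⟨e, he⟩ := exists_surjective_nat ι
    obtain ⟨B, hB⟩ := H43.Split.countable_split
      (fun n => if P (e n) then S (e n) else univ) (fun n => by
        by_cases h : P (e n)
        · simp only [h, if_true]; exact hS _ h
        · simp only [h, if_false]; exact infinite_univ)
    refine ⟨B, fun i hi => ?_⟩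
    obtain ⟨n, rfl⟩ := he i
    have := hB n
    simp only [hi, if_true] at this
    exact this
  · exact ⟨∅, fun i => absurd ⟨i⟩ hι⟩

/-- **Splitting.**  If all branches which eventually follow `a` are in infinitely many `W n`, then
for some partition of the set of indices into two parts and some smaller branching system all
branches which eventually follow it are in infinitely many `W n` for both parts. -/
theorem exists_split (hW : ∀ n, Op (W n)) (ha : ∀ t, (a t).Infinite) {A : Set (ℕ → ℕ)}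
    (hA : A.Countable) (hAW : ∀ y ∈ A, {n | y ∈ W n}.Infinite)
    (H : ∀ y : ℕ → ℕ, (∃ N, ∀ i, N ≤ i → y i ∈ a (pre y i)) → {n | y ∈ W n}.Infinite) :
    ∃ (S : Set ℕ) (b : List ℕ → Set ℕ), (∀ t, b t ⊆ a t) ∧ (∀ t, (b t).Infinite) ∧
      ∀ y : ℕ → ℕ, (y ∈ A ∨ ∃ N, ∀ i, N ≤ i → y i ∈ b (pre y i)) →
        {n | n ∈ S ∧ y ∈ W n}.Infinite ∧ {n | n ∉ S ∧ y ∈ W n}.Infinite := by
  classical
  have hAc : Countable A := hA.to_subtype
  have hc : ∀ t, ∃ K : Set ℕ, ∃ n : ℕ → ℕ, Crit a W t → K ⊆ a t ∧ K.Infinite ∧ InjOn n K ∧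
      ∀ k ∈ K, n k ∈ Nn a W (k :: t) := by
    intro t
    by_cases h : Crit a W t
    · obtain ⟨K, hK, hKi, n, hn, hn'⟩ := h
      exact ⟨K, n, fun _ => ⟨hK, hKi, hn, hn'⟩⟩
    · exact ⟨∅, id, fun h' => absurd h' h⟩
  choose K n hKn using hc
  obtain ⟨S, hS⟩ := split_countable (ι := (List ℕ ⊕ List ℕ) ⊕ A)
    (Sum.elim (Sum.elim (fun t => (Nn a W t).Infinite) fun t => Crit a W t) fun _ => True)
    (Sum.elim (Sum.elim (fun t => Nn a W t) fun t => n t '' K t) fun y => {n | y.1 ∈ W n})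
    (by
      rintro ((t | t) | y) h
      · exact h
      · exact (hKn t h).2.1.image (hKn t h).2.2.1
      · exact hAW y.1 y.2)
  -- all tasks can be reached
  have key : ∀ (S' : Set ℕ) (m : ℕ),
      (∀ t, (Nn a W t).Infinite → {j | j ∈ S' ∧ j ∈ Nn a W t}.Infinite) →
      (∀ t, Crit a W t → {j | j ∈ S' ∧ j ∈ n t '' K t}.Infinite) →
      ∀ t, Cl a {s | ∃ j, m ≤ j ∧ j ∈ S' ∧ cyl s ⊆ W j} t := by
    intro S' m h1 h2 t
    refine (cl_crit hW H ha t).trans ?_
    rintro s (hs | hs)
    · obtain ⟨j, ⟨hj1, hj2⟩, hjm⟩ := (h1 s hs).exists_gt m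
      refine Cl.mono ?_ hj2
      exact fun u hu => ⟨j, hjm.le, hj1, hu⟩
    · obtain ⟨hK1, hK2, hK3, hK4⟩ := hKn s hs
      refine .step {k | k ∈ K s ∧ m ≤ n s k ∧ n s k ∈ S'} ?_ (fun k hk => hK1 hk.1)
        (fun k hk => ?_)
      · intro hfin
        refine (h2 s hs) (((finite_Iio m).union (hfin.image (n s))).subset ?_)
        rintro _ ⟨hj, k, hk, rfl⟩
        by_cases hkm : n s k < m
        · exact Or.inl hkm
        · exact Or.inr ⟨k, ⟨hk, not_lt.1 hkm, hj⟩, rfl⟩
      · refine Cl.mono ?_ (hK4 k hk.1)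
        exact fun u hu => ⟨n s k, hk.2.1, hk.2.2, hu⟩
  -- the targets
  obtain ⟨T, hTd⟩ : ∃ T : ℕ → Set (List ℕ), ∀ j s, s ∈ T j ↔
      ∃ i, j ≤ i ∧ (i ∈ S ↔ j % 2 = 0) ∧ cyl s ⊆ W i :=
    ⟨fun j => {s | ∃ i, j ≤ i ∧ (i ∈ S ↔ j % 2 = 0) ∧ cyl s ⊆ W i}, fun _ _ => Iff.rfl⟩
  have hT : ∀ j t, Cl a (T j) t := by
    intro j t
    by_cases hj : j % 2 = 0
    · refine Cl.mono ?_ (key S j (fun t ht => (hS (Sum.inl (Sum.inl t)) ht).1)
        (fun t ht => (hS (Sum.inl (Sum.inr t)) ht).1) t)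
      rintro s ⟨i, h1, h2, h3⟩
      exact (hTd j s).2 ⟨i, h1, by simp [h2, hj], h3⟩
    · refine Cl.mono ?_ (key Sᶜ j (fun t ht => (hS (Sum.inl (Sum.inl t)) ht).2)
        (fun t ht => (hS (Sum.inl (Sum.inr t)) ht).2) t)
      rintro s ⟨i, h1, h2, h3⟩
      refine (hTd j s).2 ⟨i, h1, ?_, h3⟩
      constructor
      · exact fun h => absurd h h2
      · exact fun h => absurd h hj
  have hstr := fun j => exists_strategy ha (hT j)
  choose b hb1 hb2 hb3 using hstr
  -- the active task
  obtain ⟨J, hJ⟩ : ∃ J : List ℕ → ℕ, ∀ k u, J (k :: u) =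
      if u ∈ T (J u) then J u + 1 else J u :=
    ⟨fun t => List.rec 0 (fun _ u r => if u ∈ T r then r + 1 else r) t, fun _ _ => rfl⟩
  refine ⟨S, fun t => b (J t) t, fun t => hb1 _ t, fun t => hb2 _ t, fun y hy => ?_⟩
  rcases hy with hy | ⟨N, hN⟩
  · exact hS (Sum.inr ⟨y, hy⟩) trivial
  · -- the number of the active task is unbounded
    have hmono : ∀ i, J (pre y i) ≤ J (pre y (i + 1)) := by
      intro i
      rw [pre_succ, hJ]
      split_ifs
      · exact Nat.le_succ _
      · exact le_rfl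
    have hmono' : Monotone fun i => J (pre y i) := monotone_nat_of_le_succ hmono
    have hstep : ∀ i, N ≤ i → ∃ i', i ≤ i' ∧ pre y i' ∈ T (J (pre y i)) := by
      intro i hi
      by_contra hcon
      push Not at hcon
      have hconst : ∀ i', i ≤ i' → J (pre y i') = J (pre y i) := by
        intro i' hi'
        induction i', hi' using Nat.le_induction with
        | base => rfl
        | succ i' hi' ih =>
          rw [pre_succ, hJ, ih, if_neg (hcon i' hi')]
      obtain ⟨i', hi', h⟩ := hb3 (J (pre y i)) y i (fun i' hi' => by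
        have h1 : y i' ∈ b (J (pre y i')) (pre y i') := hN i' (hi.trans hi')
        rw [hconst i' hi'] at h1
        exact h1)
      exact hcon i' hi' h
    -- the first time after `i` at which the task is completed
    have hstep' : ∀ i, N ≤ i → ∃ i', i ≤ i' ∧ J (pre y i') = J (pre y i) ∧
        pre y i' ∈ T (J (pre y i)) := by
      intro i hi
      obtain ⟨i', hi', h⟩ := hstep i hi
      have hex : ∃ i', i ≤ i' ∧ pre y i' ∈ T (J (pre y i)) := ⟨i', hi', h⟩
      refine ⟨Nat.find hex, (Nat.find_spec hex).1, ?_, (Nat.find_spec hex).2⟩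
      have hc : ∀ l, i ≤ l → l ≤ Nat.find hex → J (pre y l) = J (pre y i) := by
        intro l hl
        induction l, hl using Nat.le_induction with
        | base => intro _; rfl
        | succ l hl ih =>
          intro hl'
          have h1 := ih (by omega)
          have h2 : ¬ (i ≤ l ∧ pre y l ∈ T (J (pre y i))) := Nat.find_min hex (by omega)
          rw [pre_succ, hJ, h1, if_neg fun h => h2 ⟨hl, h⟩]
      exact hc _ (Nat.find_spec hex).1 le_rfl
    have hall : ∀ j, J (pre y N) ≤ j → ∃ i, N ≤ i ∧ J (pre y i) = j := by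
      intro j hj
      induction j, hj using Nat.le_induction with
      | base => exact ⟨N, le_rfl, rfl⟩
      | succ j _ ih =>
        obtain ⟨i, hi, hij⟩ := ih
        obtain ⟨i', hi', h1, h2⟩ := hstep' i hi
        refine ⟨i' + 1, by omega, ?_⟩
        rw [pre_succ, hJ, h1, if_pos h2, hij]
    have hall' : ∀ j, J (pre y N) ≤ j → ∃ i, j ≤ i ∧ (i ∈ S ↔ j % 2 = 0) ∧ y ∈ W i := by
      intro j hj
      obtain ⟨i, hi, hij⟩ := hall j hj
      obtain ⟨i', _, h⟩ := hstep i hi
      rw [hij] at h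
      obtain ⟨l, hl1, hl2, hl3⟩ := (hTd _ _).1 h
      exact ⟨l, hl1, hl2, hl3 (self_mem y i')⟩
    constructor
    · rw [infinite_iff_exists_gt]
      intro m
      obtain ⟨i, hi1, hi2, hi3⟩ := hall' (2 * (J (pre y N) + m + 1)) (by omega)
      exact ⟨i, ⟨hi2.2 (by omega), hi3⟩, by omega⟩
    · rw [infinite_iff_exists_gt]
      intro m
      obtain ⟨i, hi1, hi2, hi3⟩ := hall' (2 * (J (pre y N) + m + 1) + 1) (by omega)
      exact ⟨i, ⟨fun h => absurd (hi2.1 h) (by omega), hi3⟩, by omega⟩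

end

end Pool.Agent.SP45
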