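import Pool.Agent.OG45.Defs

/-!
# Separable metrizable spaces and splittable large covers inside a structure of set theory

`E x y` is read `x ∈ y`.  All notions are relativized to the structure: all quantifiers range
over `M`, so that for a model `(M, E)` of ZFC they express that `(M, E)` satisfies the
corresponding statement of set theory.
-/

namespace Pool.Agent.SP45

open Pool.Agent.BVM (CardLE)
open Pool.Agent.OG45 (Sub Finite)
open Pool.Agent.MAx (IsProd)

section

variable {M : Type*} (E : M → M → Prop)

/-- `B` is a countable base of a topology on the set `X` which is regular and `T₁` (here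
`w = ω`).  By Urysohn's metrization theorem these are exactly the separable metrizable spaces with
a given countable base. -/
structure Space (w X B : M) : Prop where
  /-- the members of `B` are subsets of `X` -/
  sub : ∀ U, E U B → Sub E U X
  /-- they cover `X` -/
  cov : ∀ x, E x X → ∃ U, E U B ∧ E x U
  /-- they are a base of a topology -/
  inter : ∀ U V x, E U B → E V B → E x U → E x V → ∃ W, E W B ∧ E x W ∧ Sub E W U ∧ Sub E W V
  /-- the topology is `T₁` -/
  t1 : ∀ x y, E x X → E y X → x ≠ y → ∃ U, E U B ∧ E x U ∧ ¬ E y U
  /-- the topology is regular: each point `x` of a member `U` is in a member `V` whose closure is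
  contained in `U`, that is, each point `y` of `X` outside `U` is in some member disjoint
  from `V` -/
  reg : ∀ U x, E U B → E x U → ∃ V, E V B ∧ E x V ∧ ∀ y, E y X → ¬ E y U →
    ∃ W, E W B ∧ E y W ∧ ∀ z, E z W → ¬ E z V
  /-- the base is countable -/
  ctb : CardLE E B w

/-- `U` is an open subset of the space `X` with base `B` -/
def IsOpen (X B U : M) : Prop := Sub E U X ∧ ∀ x, E x U → ∃ V, E V B ∧ E x V ∧ Sub E V U

/-- the space `X` with base `B` is compact: every family `C` of open sets which covers `X` has a
finite subfamily which covers `X` -/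
def Compact (w X B : M) : Prop :=
  ∀ C, (∀ U, E U C → IsOpen E X B U) → (∀ x, E x X → ∃ U, E U C ∧ E x U) →
    ∃ f, Finite E w f ∧ Sub E f C ∧ ∀ x, E x X → ∃ U, E U f ∧ E x U

/-- `C` is an open cover of `X`: a family of open sets with union `X` which does not contain
`X` -/
def OpenCover (X B C : M) : Prop :=
  (∀ U, E U C → IsOpen E X B U) ∧ (∀ x, E x X → ∃ U, E U C ∧ E x U) ∧ ¬ E X C

/-- `C` is a large open cover of `X`: each point of `X` is in infinitely many members, that is,
no finite set contains all members to which the point belongs -/
def Large (w X B C : M) : Prop :=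
  OpenCover E X B C ∧ ∀ x, E x X → ¬ ∃ f, Finite E w f ∧ ∀ U, E U C → E x U → E U f

/-- the space `X` with base `B` satisfies `Split(Λ, Λ)`: every large open cover `C` is the union of
two disjoint families `V` and `W` each of which contains a large open cover -/
def Split (w X B : M) : Prop :=
  ∀ C, Large E w X B C → ∃ V W, (∀ U, E U C ↔ (E U V ∨ E U W)) ∧ (∀ U, E U V → ¬ E U W) ∧
    (∃ V', Sub E V' V ∧ Large E w X B V') ∧ ∃ W', Sub E W' W ∧ Large E w X B W'

/-- the set `Z` with the base `D` is the product of the spaces `X` (with base `B`) and `Y` (with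
base `C`): `Z = X × Y`, and `D` is the set of all products `U × V` with `U ∈ B` and `V ∈ C` -/
def ProdSpace (Z D X B Y C : M) : Prop :=
  IsProd E Z X Y ∧ ∀ W, E W D ↔ ∃ U V, E U B ∧ E V C ∧ IsProd E W U V

end

end Pool.Agent.SP45
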