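import Pool.Agent.SP45.Defs
import Pool.Agent.OG45.Pos

/-!
# Spaces given by names

A type `T` of points with names which are never equal, a Boolean value `g t` for each point, and a
family of subsets of `T`.
-/

namespace Pool.Agent.SP45

open Classical Set Pool.Agent Pool.Agent.LadderTree Pool.Agent.Forcing Pool.Agent.MAx
open Pool.Agent.BVM (BSet UF eqv memv chk Congr le_of_uf Disc OPair FunOn op on onT)
open Pool.Agent.OG45

section

variable {B : Type} [CompleteBooleanAlgebra B] {b : B}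

theorem rpIsOpen (X D U : BSet B) :
    RpP fun F : Pt b => SP45.IsOpen (In F) (nm F X) (nm F D) (nm F U) := by
  unfold SP45.IsOpen
  repeat' (first
    | exact RpP.mem _ _ | exact rpSub _ _
    | refine RpP.and ?_ ?_ | refine RpP.ex fun _ => ?_ | refine RpP.all fun _ => ?_
    | refine RpP.imp ?_ ?_)

theorem rpOpenCover (X D C : BSet B) :
    RpP fun F : Pt b => SP45.OpenCover (In F) (nm F X) (nm F D) (nm F C) := by
  unfold SP45.OpenCover
  repeat' (first
    | exact RpP.mem _ _ | exact rpIsOpen _ _ _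
    | refine RpP.and ?_ ?_ | refine RpP.ex fun _ => ?_ | refine RpP.all fun _ => ?_
    | refine RpP.not ?_ | refine RpP.imp ?_ ?_)

theorem rpLarge (w X D C : BSet B) :
    RpP fun F : Pt b => Large (In F) (nm F w) (nm F X) (nm F D) (nm F C) := by
  unfold Large
  repeat' (first
    | exact RpP.mem _ _ | exact rpOpenCover _ _ _ | exact rpFinite _ _
    | refine RpP.and ?_ ?_ | refine RpP.ex fun _ => ?_ | refine RpP.all fun _ => ?_
    | refine RpP.not ?_ | refine RpP.imp ?_ ?_)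

theorem rpSplitC (w X D C : BSet B) :
    RpP fun F : Pt b => ∃ V W, (∀ U, In F U (nm F C) ↔ (In F U V ∨ In F U W)) ∧
      (∀ U, In F U V → ¬ In F U W) ∧
      (∃ V', Sub (In F) V' V ∧ Large (In F) (nm F w) (nm F X) (nm F D) V') ∧
      ∃ W', Sub (In F) W' W ∧ Large (In F) (nm F w) (nm F X) (nm F D) W' := by
  repeat' (first
    | exact RpP.mem _ _ | exact rpLarge _ _ _ _ | exact rpSub _ _
    | refine RpP.and ?_ ?_ | refine RpP.or ?_ ?_ | refine RpP.ex fun _ => ?_
    | refine RpP.all fun _ => ?_ | refine RpP.iff ?_ ?_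
    | refine RpP.not ?_ | refine RpP.imp ?_ ?_)

theorem rpProd (Z X Y : BSet B) :
    RpP fun F : Pt b => IsProd (In F) (nm F Z) (nm F X) (nm F Y) := by
  unfold IsProd
  repeat' (first
    | exact RpP.mem _ _ | exact RpP.opair _ _ _
    | refine RpP.and ?_ ?_ | refine RpP.ex fun _ => ?_ | refine RpP.all fun _ => ?_
    | refine RpP.iff ?_ ?_)

end

section

variable {P : Type} [Preorder P] {T : Type} {pn : T → BSet (RO P)} {g : T → RO P}

/-- the name of the trace of `W` on the space -/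
noncomputable def trN (pn : T → BSet (RO P)) (g : T → RO P) (W : Set T) : BSet (RO P) :=
  .mk T pn fun t => g t ⊓ tv (t ∈ W)

theorem in_tr (hd : Disc pn) {F : GG P} {t : T} {W : Set T} :
    In F (nm F (pn t)) (nm F (trN pn g W)) ↔ F.1.U (g t) ∧ t ∈ W := by
  rw [In_nm]
  have : memv (pn t) (trN pn g W) = g t ⊓ tv (t ∈ W) := by
    rw [trN, BVM.memv_mk]
    refine le_antisymm (iSup_le fun a => ?_) (le_iSup_of_le t ?_)
    · rw [hd]
      by_cases h : t = a
      · rw [h]; exact inf_le_left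
      · rw [tv_false h, inf_bot_eq]; exact bot_le
    · rw [BVM.eqv_refl, inf_top_eq]
  rw [this, F.1.inf_iff, F.1.tv_iff]

theorem tr_chk {F : GG P} {W : Set T} {x : Md F} (h : In F x (nm F (trN pn g W))) :
    In F x (nm F (chk pn)) := by
  obtain ⟨x, rfl⟩ := exists_nm x
  rw [In_nm, trN, BVM.memv_mk] at h
  rw [In_nm, BVM.memv_chk]
  exact F.1.mono (iSup_mono fun a => inf_le_right) h

/-- elements of traces, below a condition -/
theorem fc_tr (hd : Disc pn) {W : Set T} {q : P} {A : ∀ F : GG P, Md F → Prop}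
    (hA : ∀ y, RpP fun F => A F (nm F y))
    (h : ∀ F : GG P, F.1.U (pt q) → ∀ t ∈ W, F.1.U (g t) → A F (nm F (pn t))) {F : GG P}
    (hF : F.1.U (pt q)) {y : Md F} (hy : In F y (nm F (trN pn g W))) : A F y :=
  fc_chk (x := pn) (A := fun F y => In F y (nm F (trN pn g W)) → A F y)
    (fun y => (RpP.mem _ _).imp (hA y))
    (fun F hF t ht => h F hF t ((in_tr hd).1 ht).2 ((in_tr hd).1 ht).1) hF (tr_chk hy) hy

/-- elements of traces -/
theorem all_tr (hd : Disc pn) {W : Set T} {A : ∀ F : GG P, Md F → Prop}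
    (hA : ∀ y, RpP fun F => A F (nm F y))
    (h : ∀ F : GG P, ∀ t ∈ W, F.1.U (g t) → A F (nm F (pn t))) {F : GG P}
    {y : Md F} (hy : In F y (nm F (trN pn g W))) : A F y :=
  all_chk (b := (⊤ : RO P)) (x := pn) (A := fun F y => In F y (nm F (trN pn g W)) → A F y)
    (fun y => (RpP.mem _ _).imp (hA y))
    (fun F t ht => h F t ((in_tr hd).1 ht).2 ((in_tr hd).1 ht).1) F _ (tr_chk hy) hy

theorem tr_mono (hd : Disc pn) {V W : Set T} (h : V ⊆ W) (F : GG P) :
    Sub (In F) (nm F (trN pn g V)) (nm F (trN pn g W)) := by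
  intro x hx
  exact all_tr hd (A := fun F x => In F x (nm F (trN pn g W))) (fun _ => RpP.mem _ _)
    (fun F t ht hg => (in_tr hd).2 ⟨hg, h ht⟩) hx

/-- the name of the space -/
noncomputable def spN (pn : T → BSet (RO P)) (g : T → RO P) : BSet (RO P) := trN pn g univ

theorem in_sp (hd : Disc pn) {F : GG P} {t : T} :
    In F (nm F (pn t)) (nm F (spN pn g)) ↔ F.1.U (g t) := by
  rw [spN, in_tr hd]
  exact ⟨fun h => h.1, fun h => ⟨h, mem_univ _⟩⟩

variable {I : Type} {β : I → Set T}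

/-- the name of the base -/
noncomputable def bsN (pn : T → BSet (RO P)) (g : T → RO P) (β : I → Set T) : BSet (RO P) :=
  chk fun i => trN pn g (β i)

/-- surjections onto check sets -/
theorem cardLE_chk {ι κ : Type} {y : κ → BSet (RO P)} (hy : Disc y) (x : ι → BSet (RO P))
    {e : κ → ι} (he : Function.Surjective e) (F : GG P) :
    BVM.CardLE (In F) (nm F (chk x)) (nm F (chk y)) := by
  have hf := funOn_fnN (b := (⊤ : RO P)) (x := y) (y := fun i => x (e i)) hy F
  refine ⟨nm F (fnN y fun i => x (e i)), ?_, ?_⟩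
  · intro u v v' h h'
    have hu : In F u (nm F (chk y)) := by
      obtain ⟨z, hz, hzf⟩ := h
      obtain ⟨u', v'', hu', hz'⟩ := hf.1 z hzf
      rw [(hz.inj hz').1]
      exact hu'
    obtain ⟨y', _, hy'⟩ := hf.2 u hu
    rw [hy' v h, hy' v' h']
  · intro v hv
    refine all_chk (b := (⊤ : RO P)) (A := fun F v => ∃ z, In F z (nm F (chk y)) ∧
      BVM.Rel (In F) (nm F (fnN y fun i => x (e i))) z v)
      (fun v => RpP.ex fun z => (RpP.mem z _).and (RpP.rel _ z v)) (fun F i => ?_) F v hv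
    obtain ⟨k, rfl⟩ := he i
    exact ⟨nm F (y k), In_chk y k F, (rel_fnN hy F k _).2 rfl⟩

/-- the axioms for the family of subsets -/
structure GBase (β : I → Set T) : Prop where
  cov : ∀ t, ∃ i, t ∈ β i
  inter : ∀ i j t, t ∈ β i → t ∈ β j → ∃ k, t ∈ β k ∧ β k ⊆ β i ∧ β k ⊆ β j
  t1 : ∀ t t', t ≠ t' → ∃ i, t ∈ β i ∧ t' ∉ β i
  reg : ∀ i t, t ∈ β i → ∃ j, t ∈ β j ∧ ∀ t', t' ∉ β i → ∃ k, t' ∈ β k ∧ ∀ s ∈ β k, s ∉ β j

theorem GBase.space [Countable I] [Nonempty I] (hβ : GBase β) (hd : Disc pn) (F : GG P) :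
    Space (In F) (nm F (onT ℕ)) (nm F (spN pn g)) (nm F (bsN pn g β)) where
  sub U hU := by
    refine all_chk (b := (⊤ : RO P)) (A := fun F U => Sub (In F) U (nm F (spN pn g)))
      (fun U => rpSub U _) (fun F i => ?_) F U hU
    exact tr_mono hd (subset_univ _) F
  cov x hx := by
    refine all_tr hd (A := fun F x => ∃ U, In F U (nm F (bsN pn g β)) ∧ In F x U)
      (fun x => RpP.ex fun U => (RpP.mem U _).and (RpP.mem x U)) (fun F t _ hg => ?_) hx
    obtain ⟨i, hi⟩ := hβ.cov t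
    exact ⟨nm F (trN pn g (β i)), In_chk _ i F, (in_tr hd).2 ⟨hg, hi⟩⟩
  inter U V x hU hV hxU hxV := by
    have key : ∀ F : GG P, ∀ U, In F U (nm F (bsN pn g β)) → ∀ V, In F V (nm F (bsN pn g β)) →
        ∀ x, In F x (nm F (spN pn g)) → In F x U → In F x V →
        ∃ W, In F W (nm F (bsN pn g β)) ∧ In F x W ∧ Sub (In F) W U ∧ Sub (In F) W V := by
      intro F U hU
      have hRp : ∀ U V x : BSet (RO P), RpP fun F : GG P => ∃ W, In F W (nm F (bsN pn g β)) ∧
          In F (nm F x) W ∧ Sub (In F) W (nm F U) ∧ Sub (In F) W (nm F V) := by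
        intro U V x
        repeat' (first
          | exact RpP.mem _ _ | exact rpSub _ _
          | refine RpP.and ?_ ?_ | refine RpP.ex fun _ => ?_)
      refine all_chk (b := (⊤ : RO P)) (A := fun F U => ∀ V, In F V (nm F (bsN pn g β)) →
        ∀ x, In F x (nm F (spN pn g)) → In F x U → In F x V →
        ∃ W, In F W (nm F (bsN pn g β)) ∧ In F x W ∧ Sub (In F) W U ∧ Sub (In F) W V)
        (fun U => RpP.all fun V => (RpP.mem V _).imp (RpP.all fun x => (RpP.mem x _).imp
          ((RpP.mem x U).imp ((RpP.mem x V).imp (hRp U V x))))) (fun F i V hV => ?_) F U hU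
      refine all_chk (b := (⊤ : RO P)) (A := fun F V =>
        ∀ x, In F x (nm F (spN pn g)) → In F x (nm F (trN pn g (β i))) → In F x V →
        ∃ W, In F W (nm F (bsN pn g β)) ∧ In F x W ∧ Sub (In F) W (nm F (trN pn g (β i))) ∧
          Sub (In F) W V)
        (fun V => (RpP.all fun x => (RpP.mem x _).imp
          ((RpP.mem x _).imp ((RpP.mem x V).imp (hRp _ V x))))) (fun F j x hx => ?_) F V hV
      refine all_tr hd (A := fun F x => In F x (nm F (trN pn g (β i))) →
        In F x (nm F (trN pn g (β j))) →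
        ∃ W, In F W (nm F (bsN pn g β)) ∧ In F x W ∧ Sub (In F) W (nm F (trN pn g (β i))) ∧
          Sub (In F) W (nm F (trN pn g (β j))))
        (fun x => ((RpP.mem x _).imp ((RpP.mem x _).imp (hRp _ _ x)))) (fun F t _ hg hi hj => ?_)
        hx
      obtain ⟨k, hk, hki, hkj⟩ := hβ.inter i j t ((in_tr hd).1 hi).2 ((in_tr hd).1 hj).2
      exact ⟨nm F (trN pn g (β k)), In_chk _ k F, (in_tr hd).2 ⟨hg, hk⟩, tr_mono hd hki F,
        tr_mono hd hkj F⟩
    refine key F U hU V hV x ?_ hxU hxV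
    refine all_chk (b := (⊤ : RO P)) (A := fun F U => ∀ x, In F x U → In F x (nm F (spN pn g)))
      (fun U => RpP.all fun x => (RpP.mem x U).imp (RpP.mem x _)) (fun F i x hx => ?_) F U hU x hxU
    exact tr_mono hd (subset_univ _) F x hx
  t1 x y hx hy hxy := by
    have hRp : ∀ x y : BSet (RO P), RpP fun F : GG P => ∃ U, In F U (nm F (bsN pn g β)) ∧
        In F (nm F x) U ∧ ¬ In F (nm F y) U := fun x y => RpP.ex fun U =>
      (RpP.mem U _).and ((RpP.mem x U).and (RpP.mem y U).not)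
    refine all_tr hd (A := fun F x => ∀ y, In F y (nm F (spN pn g)) → x ≠ y →
      ∃ U, In F U (nm F (bsN pn g β)) ∧ In F x U ∧ ¬ In F y U)
      (fun x => RpP.all fun y => (RpP.mem y _).imp ((RpP.eq x y).not.imp (hRp x y)))
      (fun F t _ hg y hy => ?_) hx y hy hxy
    refine all_tr hd (A := fun F y => F.1.U (g t) → nm F (pn t) ≠ y →
      ∃ U, In F U (nm F (bsN pn g β)) ∧ In F (nm F (pn t)) U ∧ ¬ In F y U)
      (fun y => (RpP.val _).imp ((RpP.eq _ y).not.imp (hRp _ y)))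
      (fun F t' _ hg' hg ht => ?_) hy hg
    obtain ⟨i, hi, hi'⟩ := hβ.t1 t t' (fun h => ht (by rw [h]))
    exact ⟨nm F (trN pn g (β i)), In_chk _ i F, (in_tr hd).2 ⟨hg, hi⟩,
      fun h => hi' ((in_tr hd).1 h).2⟩
  reg U x hU hx := by
    have hRp : ∀ U x : BSet (RO P), RpP fun F : GG P => ∃ V, In F V (nm F (bsN pn g β)) ∧
        In F (nm F x) V ∧ ∀ y, In F y (nm F (spN pn g)) → ¬ In F y (nm F U) →
        ∃ W, In F W (nm F (bsN pn g β)) ∧ In F y W ∧ ∀ z, In F z W → ¬ In F z V := by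
      intro U x
      repeat' (first
        | exact RpP.mem _ _ | exact rpSub _ _
        | refine RpP.and ?_ ?_ | refine RpP.ex fun _ => ?_ | refine RpP.all fun _ => ?_
        | refine RpP.not ?_ | refine RpP.imp ?_ ?_)
    refine all_chk (b := (⊤ : RO P)) (A := fun F U => ∀ x, In F x U →
      ∃ V, In F V (nm F (bsN pn g β)) ∧ In F x V ∧ ∀ y, In F y (nm F (spN pn g)) → ¬ In F y U →
        ∃ W, In F W (nm F (bsN pn g β)) ∧ In F y W ∧ ∀ z, In F z W → ¬ In F z V)
      (fun U => RpP.all fun x => (RpP.mem x U).imp (hRp U x)) (fun F i x hx => ?_) F U hU x hx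
    refine all_tr hd (A := fun F x =>
      ∃ V, In F V (nm F (bsN pn g β)) ∧ In F x V ∧ ∀ y, In F y (nm F (spN pn g)) →
        ¬ In F y (nm F (trN pn g (β i))) →
        ∃ W, In F W (nm F (bsN pn g β)) ∧ In F y W ∧ ∀ z, In F z W → ¬ In F z V)
      (fun x => hRp _ x) (fun F t ht hg => ?_) hx
    obtain ⟨j, hj, hj'⟩ := hβ.reg i t ht
    refine ⟨nm F (trN pn g (β j)), In_chk _ j F, (in_tr hd).2 ⟨hg, hj⟩, fun y hy => ?_⟩
    refine all_tr hd (A := fun F y => ¬ In F y (nm F (trN pn g (β i))) →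
        ∃ W, In F W (nm F (bsN pn g β)) ∧ In F y W ∧ ∀ z, In F z W →
          ¬ In F z (nm F (trN pn g (β j)))) (fun y => ?_) (fun F t' _ hg' ht' => ?_) hy
    · repeat' (first
        | exact RpP.mem _ _ | exact rpSub _ _
        | refine RpP.and ?_ ?_ | refine RpP.ex fun _ => ?_ | refine RpP.all fun _ => ?_
        | refine RpP.not ?_ | refine RpP.imp ?_ ?_)
    · obtain ⟨k, hk, hk'⟩ := hj' t' (fun h => ht' ((in_tr hd).2 ⟨hg', h⟩))
      refine ⟨nm F (trN pn g (β k)), In_chk _ k F, (in_tr hd).2 ⟨hg', hk⟩, fun z hz => ?_⟩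
      refine all_tr hd (A := fun F z => ¬ In F z (nm F (trN pn g (β j))))
        (fun z => (RpP.mem z _).not) (fun F s hs _ h => ?_) hz
      exact hk' s hs ((in_tr hd).1 h).2
  ctb := by
    obtain ⟨e, he⟩ := exists_surjective_nat I
    exact cardLE_chk disc_nat _ he F

/-- traces of open sets are open -/
theorem isOpen_tr (hd : Disc pn) {W : Set T} (hW : ∀ t ∈ W, ∃ i, t ∈ β i ∧ β i ⊆ W) (F : GG P) :
    SP45.IsOpen (In F) (nm F (spN pn g)) (nm F (bsN pn g β)) (nm F (trN pn g W)) := by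
  refine ⟨tr_mono hd (subset_univ _) F, fun x hx => ?_⟩
  refine all_tr hd (A := fun F x => ∃ V, In F V (nm F (bsN pn g β)) ∧ In F x V ∧
    Sub (In F) V (nm F (trN pn g W))) (fun x => RpP.ex fun V => (RpP.mem V _).and
      ((RpP.mem x V).and (rpSub V _))) (fun F t ht hg => ?_) hx
  obtain ⟨i, hi, hiW⟩ := hW t ht
  exact ⟨nm F (trN pn g (β i)), In_chk _ i F, (in_tr hd).2 ⟨hg, hi⟩, tr_mono hd hiW F⟩

/-- open sets are traces of open sets of the ground model -/
theorem exists_trace (hσ : SigmaClosed P) [Countable I] (hd : Disc pn) {u : BSet (RO P)} {q : P}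
    (h : Fc q fun F => SP45.IsOpen (In F) (nm F (spN pn g)) (nm F (bsN pn g β)) (nm F u)) :
    ∃ r ≤ q, ∃ J : Set I, Fc r fun F => nm F u = nm F (trN pn g (⋃ i ∈ J, β i)) := by
  obtain ⟨r, hr, J, hJ⟩ := decide_all hσ q (ι := I) (A := fun i F =>
    Sub (In F) (nm F (trN pn g (β i))) (nm F u)) (fun i => rpSub _ u)
  refine ⟨r, hr, J, ?_⟩
  have h1 : Fc r fun F => ∀ z, In F z (nm F u) → In F z (nm F (trN pn g (⋃ i ∈ J, β i))) := by
    refine Fc.all fun z => Fc.imp (RpP.mem _ _) (RpP.mem _ _) fun r1 hr1 hz => ?_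
    refine Fc.dense (RpP.mem _ _) fun r2 hr2 => ?_
    have ho2 := h.mono (hr2.trans (hr1.trans hr))
    have hz2 := hz.mono hr2
    obtain ⟨V, hV⟩ := Fc.name (q := r2) (A := fun F V => In F V (nm F (bsN pn g β)) ∧
      In F (nm F z) V ∧ Sub (In F) V (nm F u)) (fun V => (RpP.mem V _).and ((RpP.mem z V).and
        (rpSub V u))) (fun F hF => (ho2 F hF).2 _ (hz2 F hF))
    obtain ⟨r3, hr3, i, hi⟩ := Fc.chk (x := fun i => trN pn g (β i)) (y := V) (q := r2)
      (fun F hF => (hV F hF).1)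
    have hiJ : i ∈ J := by
      obtain ⟨F, hF⟩ := exists_gg r3
      have e : nm F V = nm F (trN pn g (β i)) := hi F hF
      refine (hJ i F (F.1.mono (pt_mono (hr3.trans (hr2.trans hr1))) hF)).1 ?_
      rw [← e]
      exact (hV F (F.1.mono (pt_mono hr3) hF)).2.2
    refine ⟨r3, hr3, fun F hF => ?_⟩
    have e : nm F V = nm F (trN pn g (β i)) := hi F hF
    refine tr_mono hd (subset_biUnion_of_mem (u := β) hiJ) F _ ?_
    rw [← e]
    exact (hV F (F.1.mono (pt_mono hr3) hF)).2.1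
  have h2 : Fc r fun F => ∀ z, In F z (nm F (trN pn g (⋃ i ∈ J, β i))) → In F z (nm F u) := by
    intro F hF z hz
    refine fc_tr hd (q := r) (A := fun F z => In F z (nm F u)) (fun _ => RpP.mem _ _)
      (fun F hF t ht hg => ?_) hF hz
    rw [mem_iUnion₂] at ht
    obtain ⟨i, hi, ht⟩ := ht
    exact (hJ i F hF).2 hi _ ((in_tr hd).2 ⟨hg, ht⟩)
  exact fun F hF => ext_nm fun z => ⟨h1 F hF z, h2 F hF z⟩

end

end Pool.Agent.SP45
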