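import Pool.Agent.SP45.Gsp

/-!
# Large covers of spaces given by names
-/

namespace Pool.Agent.SP45

open Classical Set Pool.Agent Pool.Agent.LadderTree Pool.Agent.Forcing Pool.Agent.MAx
open Pool.Agent.BVM (BSet UF eqv memv chk Congr le_of_uf Disc OPair FunOn op on onT)
open Pool.Agent.OG45

/-- the list of the first `n` values, the last one first -/
def hist {X : Type} (f : ℕ → X) : ℕ → List X
  | 0 => []
  | n + 1 => f n :: hist f n

theorem mem_hist {X : Type} {f : ℕ → X} {n : ℕ} {x : X} : x ∈ hist f n ↔ ∃ j < n, f j = x := by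
  induction n with
  | zero => simp [hist]
  | succ n ih =>
    rw [hist, List.mem_cons, ih]
    constructor
    · rintro (rfl | ⟨j, hj, rfl⟩)
      · exact ⟨n, Nat.lt_succ_self n, rfl⟩
      · exact ⟨j, hj.trans (Nat.lt_succ_self n), rfl⟩
    · rintro ⟨j, hj, rfl⟩
      rcases (Nat.lt_succ_iff.1 hj).lt_or_eq with h | h
      · exact Or.inr ⟨j, h, rfl⟩
      · exact Or.inl (by rw [h])

theorem length_hist {X : Type} (f : ℕ → X) (n : ℕ) : (hist f n).length = n := by
  induction n with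
  | zero => rfl
  | succ n ih => rw [hist, List.length_cons, ih]

section

variable {P : Type} [Preorder P]

/-- a fusion in which each step depends on the previous choices -/
theorem fuse_seq (hσ : SigmaClosed P) {X : Type} {p : P} {Φ : List X → P → X → Prop}
    (hm : ∀ l q r x, r ≤ q → Φ l q x → Φ l r x) (hd : ∀ l, ∀ q ≤ p, ∃ r ≤ q, ∃ x, Φ l r x) :
    ∃ q ≤ p, ∃ f : ℕ → X, ∀ n, Φ (hist f n) q (f n) := by
  let S : Type := {q : P // q ≤ p} × List X
  have hstep : ∀ s : S, ∃ r : {q : P // q ≤ p}, r.1 ≤ s.1.1 ∧ ∃ x, Φ s.2 r.1 x := by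
    intro s
    obtain ⟨r, hr, x, hx⟩ := hd s.2 s.1.1 s.1.2
    exact ⟨⟨r, hr.trans s.1.2⟩, hr, x, hx⟩
  choose r hr x hx using hstep
  let s : ℕ → S := fun n => Nat.rec (⟨p, le_rfl⟩, []) (fun _ s => (r s, x s :: s.2)) n
  have hs : ∀ n, s (n + 1) = (r (s n), x (s n) :: (s n).2) := fun n => rfl
  obtain ⟨q, hq⟩ := hσ (fun n => (s n).1.1) (fun n => by
    show (s (n + 1)).1.1 ≤ (s n).1.1
    rw [hs]
    exact hr (s n))
  have hh : ∀ n, hist (fun n => x (s n)) n = (s n).2 := by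
    intro n
    induction n with
    | zero => rfl
    | succ n ih => rw [hs, hist, ih]
  refine ⟨q, (hq 0).trans (s 0).1.2, fun n => x (s n), fun n => ?_⟩
  rw [hh]
  refine hm _ _ _ _ (hq (n + 1)) ?_
  show Φ (s n).2 (s (n + 1)).1.1 _
  rw [hs]
  exact hx (s n)

/-- a finite set does not contain infinitely many different elements -/
theorem not_finite (hσ : SigmaClosed P) {q : P} {f : BSet (RO P)}
    (hf : Fc q fun F => OG45.Finite (In F) (nm F (onT ℕ)) (nm F f)) {N : Set ℕ} (hN : N.Infinite)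
    {z : ℕ → BSet (RO P)} (hz : ∀ n ∈ N, Fc q fun F => In F (nm F (z n)) (nm F f))
    (hne : ∀ m ∈ N, ∀ n ∈ N, m < n → Fc q fun F => nm F (z m) ≠ nm F (z n)) : False := by
  obtain ⟨n, hn⟩ := Fc.name (q := q) (A := fun F n => In F n (nm F (onT ℕ)) ∧
    BVM.CardLE (In F) (nm F f) n) (fun _ => (RpP.mem _ _).and (rpCardLE _ _)) hf
  obtain ⟨q1, hq1, m, hm⟩ := Fc.chk (x := on) (y := n) (q := q) (fun F hF => (hn F hF).1)
  have hRp : ∀ h n : BSet (RO P), RpP fun F : GG P =>
      (∀ x y y', BVM.Rel (In F) (nm F h) x y → BVM.Rel (In F) (nm F h) x y' → y' = y) ∧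
      ∀ y, In F y (nm F f) → ∃ x, In F x (nm F n) ∧ BVM.Rel (In F) (nm F h) x y := by
    intro h n
    repeat' (first
      | exact RpP.rel _ _ _ | exact RpP.mem _ _ | exact RpP.eq _ _ | refine RpP.and ?_ ?_
      | refine RpP.ex fun _ => ?_ | refine RpP.all fun _ => ?_
      | refine RpP.imp ?_ ?_)
  obtain ⟨h, hh⟩ := Fc.name (q := q1) (A := fun F h =>
    (∀ x y y', BVM.Rel (In F) h x y → BVM.Rel (In F) h x y' → y' = y) ∧
      ∀ y, In F y (nm F f) → ∃ x, In F x (nm F (on m)) ∧ BVM.Rel (In F) h x y)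
    (fun h => hRp h (on m)) (fun F hF => by
      have h3 := (hn.mono hq1 F hF).2
      have e : nm F n = nm F (on m) := hm F hF
      rw [e] at h3
      exact h3)
  obtain ⟨q2, hq2, hΦ⟩ := fuse hσ (p := q1)
    (Φ := fun k r => k ∈ N → ∃ i < m, Fc r fun F =>
      BVM.Rel (In F) (nm F h) (nm F (on i)) (nm F (z k)))
    (fun k q r hr h hk => by
      obtain ⟨i, hi, h⟩ := h hk
      exact ⟨i, hi, h.mono hr⟩)
    (fun k r hr => by
      by_cases hk : k ∈ N
      · obtain ⟨x, hx⟩ := Fc.name (q := r) (A := fun F x => In F x (nm F (on m)) ∧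
          BVM.Rel (In F) (nm F h) x (nm F (z k))) (fun x => (RpP.mem x _).and (RpP.rel h x _))
          (fun F hF => (hh.mono hr F hF).2 _ ((hz k hk).mono (hr.trans hq1) F hF))
        obtain ⟨s, hs, i, hi⟩ := Fc.chk (x := fun i : Set.Iio m => on i.1) (y := x) (q := r)
          (fun F hF => by rw [← BVM.on_def]; exact (hx F hF).1)
        refine ⟨s, hs, fun _ => ⟨i.1, i.2, fun F hF => ?_⟩⟩
        have e : nm F x = nm F (on i.1) := hi F hF
        beta_reduce
        rw [← e]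
        exact (hx.mono hs F hF).2
      · exact ⟨r, le_rfl, fun h => absurd h hk⟩)
  choose i hi hΦ using hΦ
  obtain ⟨F, hF⟩ := exists_gg q2
  have : Infinite N := hN.to_subtype
  obtain ⟨k, l, hkl, h1⟩ := Finite.exists_ne_map_eq_of_infinite
    (fun k : N => (⟨i k.1 k.2, hi k.1 k.2⟩ : Fin m))
  have h2 : i k.1 k.2 = i l.1 l.2 := congrArg Fin.val h1
  have hkl' : k.1 ≠ l.1 := fun e => hkl (Subtype.ext e)
  have h3 := hΦ k.1 k.2 F hF
  have h4 := hΦ l.1 l.2 F hF
  rw [← h2] at h4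
  have h5 : nm F (z l.1) = nm F (z k.1) := (hh.mono hq2 F hF).1 _ _ _ h3 h4
  have hFq : F.1.U (pt q) := F.1.mono (pt_mono (hq2.trans hq1)) hF
  rcases lt_or_gt_of_ne hkl' with h6 | h6
  · exact hne k.1 k.2 l.1 l.2 h6 F hFq h5.symm
  · exact hne l.1 l.2 k.1 k.2 h6 F hFq h5

variable {T : Type} {pn : T → BSet (RO P)} {g : T → RO P} {I : Type} {β : I → Set T}

/-- the name of a countable family -/
noncomputable def famN (pn : T → BSet (RO P)) (g : T → RO P) (W : ℕ → Set T) (N : Set ℕ) :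
    BSet (RO P) := chk fun n : N => trN pn g (W n.1)

/-- a countable family of different open sets is a large cover if all points are in infinitely
many members -/
theorem large_fam (hσ : SigmaClosed P) (hd : Disc pn) {W : ℕ → Set T} {N : Set ℕ} {q : P}
    (hW : ∀ n ∈ N, ∀ t ∈ W n, ∃ i, t ∈ β i ∧ β i ⊆ W n)
    (hne : ∀ m ∈ N, ∀ n ∈ N, m < n → Fc q fun F =>
      nm F (trN pn g (W m)) ≠ nm F (trN pn g (W n)))
    (hsp : ∀ n ∈ N, Fc q fun F => nm F (trN pn g (W n)) ≠ nm F (spN pn g))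
    (hinf : ∀ r ≤ q, ∀ t, Forc r (g t) → {n | n ∈ N ∧ t ∈ W n}.Infinite) :
    Fc q fun F => Large (In F) (nm F (onT ℕ)) (nm F (spN pn g)) (nm F (bsN pn g β))
      (nm F (famN pn g W N)) := by
  -- every point of the space is named
  have hpt : ∀ (x : BSet (RO P)) (r : P), (Fc r fun F => In F (nm F x) (nm F (spN pn g))) →
      ∃ s ≤ r, ∃ t, Forc s (g t) ∧ Fc s fun F => nm F x = nm F (pn t) := by
    intro x r hx
    obtain ⟨s, hs, t, ht⟩ := Fc.chk (x := pn) (y := x) (q := r) (fun F hF => tr_chk (hx F hF))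
    refine ⟨s, hs, t, ?_, ht⟩
    rw [← pt_le_iff]
    refine le_of_pt le_top fun F hF => ?_
    have e : nm F x = nm F (pn t) := ht F hF
    have h1 := hx.mono hs F hF
    beta_reduce at h1
    rw [e, in_sp hd] at h1
    exact h1
  have h1 : Fc q fun F => OpenCover (In F) (nm F (spN pn g)) (nm F (bsN pn g β))
      (nm F (famN pn g W N)) := by
    have hop : Fc q fun F => ∀ U, In F U (nm F (famN pn g W N)) →
        SP45.IsOpen (In F) (nm F (spN pn g)) (nm F (bsN pn g β)) U := fun F hF U hU =>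
      all_chk (b := (⊤ : RO P)) (A := fun F U => SP45.IsOpen (In F) (nm F (spN pn g))
        (nm F (bsN pn g β)) U) (fun U => rpIsOpen _ _ U)
        (fun F n => isOpen_tr hd (hW n.1 n.2) F) F U hU
    have hcov : Fc q fun F => ∀ x, In F x (nm F (spN pn g)) →
        ∃ U, In F U (nm F (famN pn g W N)) ∧ In F x U := by
      have hRp : ∀ x : BSet (RO P), RpP fun F : GG P => ∃ U, In F U (nm F (famN pn g W N)) ∧
          In F (nm F x) U := fun x => RpP.ex fun U => (RpP.mem U _).and (RpP.mem x U)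
      refine Fc.all fun x => Fc.imp (RpP.mem _ _) (hRp x) fun r hr hx => ?_
      refine Fc.dense (hRp x) fun r1 hr1 => ?_
      obtain ⟨s, hs, t, hgt, ht⟩ := hpt x r1 (hx.mono hr1)
      obtain ⟨n, hn⟩ := (hinf s (hs.trans (hr1.trans hr)) t hgt).nonempty
      refine ⟨s, hs, fun F hF => ⟨nm F (trN pn g (W n)),
        In_chk (fun n : N => trN pn g (W n.1)) ⟨n, hn.1⟩ F, ?_⟩⟩
      have e : nm F x = nm F (pn t) := ht F hF
      rw [e, in_tr hd]
      exact ⟨F.1.mono (pt_le_iff.2 hgt) hF, hn.2⟩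
    have hsp' : Fc q fun F => ¬ In F (nm F (spN pn g)) (nm F (famN pn g W N)) := by
      intro F hF h
      refine fc_chk (q := q) (x := fun n : N => trN pn g (W n.1)) (A := fun F U =>
        U ≠ nm F (spN pn g)) (fun U => (RpP.eq U _).not) (fun F hF n => hsp n.1 n.2 F hF) hF h rfl
    exact fun F hF => ⟨hop F hF, hcov F hF, hsp' F hF⟩
  have h2 : Fc q fun F => ∀ x, In F x (nm F (spN pn g)) → ¬ ∃ f,
      OG45.Finite (In F) (nm F (onT ℕ)) f ∧
        ∀ U, In F U (nm F (famN pn g W N)) → In F x U → In F U f := by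
    have hRp : ∀ x : BSet (RO P), RpP fun F : GG P => ∃ f,
        OG45.Finite (In F) (nm F (onT ℕ)) f ∧
          ∀ U, In F U (nm F (famN pn g W N)) → In F (nm F x) U → In F U f := fun x =>
      RpP.ex fun f => (rpFinite _ f).and (RpP.all fun U => (RpP.mem U _).imp
        ((RpP.mem x U).imp (RpP.mem U f)))
    refine Fc.all fun x => Fc.imp (RpP.mem _ _) (hRp x).not fun r hr hx => ?_
    refine Fc.not (hRp x) fun r1 hr1 hf => ?_
    obtain ⟨f, hf⟩ := Fc.name (q := r1) (A := fun F f =>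
        OG45.Finite (In F) (nm F (onT ℕ)) f ∧
          ∀ U, In F U (nm F (famN pn g W N)) → In F (nm F x) U → In F U f)
      (fun f => (rpFinite _ f).and (RpP.all fun U => (RpP.mem U _).imp
        ((RpP.mem x U).imp (RpP.mem U f)))) hf
    obtain ⟨s, hs, t, hgt, ht⟩ := hpt x r1 (hx.mono hr1)
    have hsq : s ≤ q := hs.trans (hr1.trans hr)
    refine not_finite hσ (q := s) (f := f) (fun F hF => (hf.mono hs F hF).1)
      (hinf s hsq t hgt) (z := fun n => trN pn g (W n)) (fun n hn F hF => ?_)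
      (fun m hm n hn hmn => (hne m hm.1 n hn.1 hmn).mono hsq)
    refine (hf.mono hs F hF).2 _ (In_chk (fun n : N => trN pn g (W n.1)) ⟨n, hn.1⟩ F) ?_
    have e : nm F x = nm F (pn t) := ht F hF
    rw [e, in_tr hd]
    exact ⟨F.1.mono (pt_le_iff.2 hgt) hF, hn.2⟩
  exact fun F hF => ⟨h1 F hF, h2 F hF⟩

/-- **a countable large subfamily** -/
theorem exists_seq (hσ : SigmaClosed P) [Countable I] [Nonempty I] (hd : Disc pn)
    {C : BSet (RO P)} {q : P}
    (hC : Fc q fun F => Large (In F) (nm F (onT ℕ)) (nm F (spN pn g)) (nm F (bsN pn g β))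
      (nm F C)) :
    ∃ r ≤ q, ∃ (N : Set ℕ) (W : ℕ → Set T),
      (∀ n ∈ N, ∃ J : Set I, W n = ⋃ i ∈ J, β i) ∧
      (∀ n ∈ N, Fc r fun F => In F (nm F (trN pn g (W n))) (nm F C)) ∧
      (∀ m ∈ N, ∀ n ∈ N, m < n → Fc r fun F =>
        nm F (trN pn g (W m)) ≠ nm F (trN pn g (W n))) ∧
      ∀ s ≤ r, ∀ t, Forc s (g t) → {n | n ∈ N ∧ t ∈ W n}.Infinite := by
  obtain ⟨e, he⟩ := exists_surjective_nat I
  have hfinl : ∀ l : List (Option (Set I)), _root_.Finite {J : Set I // some J ∈ l} := by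
    intro l
    refine Finite.of_injective (fun J : {J : Set I // some J ∈ l} =>
      (⟨some J.1, J.2⟩ : {x : Option (Set I) // x ∈ l})) fun J J' h => ?_
    have := congrArg Subtype.val h
    exact Subtype.ext (Option.some_injective _ this)
  have hRpB : ∀ (l : List (Option (Set I))) (i : I) (U : BSet (RO P)), RpP fun F : GG P =>
      In F (nm F U) (nm F C) ∧ Sub (In F) (nm F (trN pn g (β i))) (nm F U) ∧
      ∀ J : {J : Set I // some J ∈ l}, nm F U ≠ nm F (trN pn g (⋃ i ∈ J.1, β i)) := by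
    intro l i U
    refine (RpP.mem U C).and ((rpSub _ U).and ?_)
    -- membership in a check set
    have h1 : RpP fun F : GG P => ¬ In F (nm F U)
        (nm F (chk fun J : {J : Set I // some J ∈ l} => trN pn g (⋃ i ∈ J.1, β i))) :=
      (RpP.mem U _).not
    refine h1.congr fun F => ?_
    constructor
    · intro h2 J h3
      apply h2
      rw [h3]
      exact In_chk (fun J : {J : Set I // some J ∈ l} => trN pn g (⋃ i ∈ J.1, β i)) J F
    · intro h2 h3
      have h4 : F.1.U (⨆ J : {J : Set I // some J ∈ l},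
          eqv U (trN pn g (⋃ i ∈ J.1, β i))) := by
        rw [← BVM.memv_chk]
        exact h3
      have h5 : ∀ (κ : Type) [_root_.Finite κ] (c : κ → RO P), F.1.U (⨆ k, c k) →
          ∃ k, F.1.U (c k) := by
        intro κ _ c hc
        by_contra hcon
        push Not at hcon
        have h6 : ∀ s : Set κ, s.Finite → F.1.U (⨅ k ∈ s, (c k)ᶜ) := by
          intro s hs
          induction s, hs using Set.Finite.induction_on with
          | empty => simp [F.1.top]
          | insert _ _ ih =>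
            rw [iInf_insert, F.1.inf_iff]
            exact ⟨(F.1.compl_iff).2 (hcon _), ih⟩
        have h7 := F.1.inf hc (h6 univ finite_univ)
        simp only [mem_univ, iInf_pos] at h7
        rw [← compl_iSup, inf_compl_eq_bot] at h7
        exact F.1.bot h7
      obtain ⟨J, hJ⟩ := h5 _ _ h4
      exact h2 J (nm_eq.2 hJ)
  obtain ⟨r, hr, f, hf⟩ := fuse_seq hσ (X := Option (Set I)) (p := q)
    (Φ := fun l r x => (x = none ∧ Fc r fun F => ¬ ∃ U, In F U (nm F C) ∧
        Sub (In F) (nm F (trN pn g (β (e (Nat.unpair l.length).1)))) U ∧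
        ∀ J : {J : Set I // some J ∈ l}, U ≠ nm F (trN pn g (⋃ i ∈ J.1, β i))) ∨
      ∃ J, x = some J ∧ (Fc r fun F => In F (nm F (trN pn g (⋃ i ∈ J, β i))) (nm F C)) ∧
        (Fc r fun F => Sub (In F) (nm F (trN pn g (β (e (Nat.unpair l.length).1))))
          (nm F (trN pn g (⋃ i ∈ J, β i)))) ∧
        ∀ J', some J' ∈ l → Fc r fun F =>
          nm F (trN pn g (⋃ i ∈ J, β i)) ≠ nm F (trN pn g (⋃ i ∈ J', β i)))
    (fun l q r x hr h => by
      rcases h with ⟨h1, h2⟩ | ⟨J, h1, h2, h3, h4⟩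
      · exact Or.inl ⟨h1, h2.mono hr⟩
      · exact Or.inr ⟨J, h1, h2.mono hr, h3.mono hr, fun J' hJ' => (h4 J' hJ').mono hr⟩)
    (fun l q' hq' => by
      set i := e (Nat.unpair l.length).1 with hi
      obtain ⟨r, hr, h | h⟩ := fc_decide (RpP.ex (P := fun F U => In F U (nm F C) ∧
          Sub (In F) (nm F (trN pn g (β i))) U ∧
          ∀ J : {J : Set I // some J ∈ l}, U ≠ nm F (trN pn g (⋃ i ∈ J.1, β i))) (hRpB l i)) q'
      · obtain ⟨U, hU⟩ := Fc.name (A := fun F U => In F U (nm F C) ∧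
          Sub (In F) (nm F (trN pn g (β i))) U ∧
          ∀ J : {J : Set I // some J ∈ l}, U ≠ nm F (trN pn g (⋃ i ∈ J.1, β i))) (hRpB l i) h
        obtain ⟨s, hs, J, hJ⟩ := exists_trace hσ (β := β) (u := U) (q := r) hd
          (fun F hF => ((hC.mono (hr.trans hq') F hF).1.1 _ (hU F hF).1))
        refine ⟨s, hs.trans hr, some J, Or.inr ⟨J, rfl, fun F hF => ?_, fun F hF => ?_,
          fun J' hJ' F hF => ?_⟩⟩
        · have e1 : nm F U = nm F (trN pn g (⋃ i ∈ J, β i)) := hJ F hF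
          beta_reduce
          rw [← e1]
          exact (hU.mono hs F hF).1
        · have e1 : nm F U = nm F (trN pn g (⋃ i ∈ J, β i)) := hJ F hF
          beta_reduce
          rw [← e1]
          exact (hU.mono hs F hF).2.1
        · have e1 : nm F U = nm F (trN pn g (⋃ i ∈ J, β i)) := hJ F hF
          beta_reduce
          rw [← e1]
          exact (hU.mono hs F hF).2.2 ⟨J', hJ'⟩
      · exact ⟨r, hr, none, Or.inl ⟨rfl, h⟩⟩)
  -- the sequence
  let N : Set ℕ := {n | ∃ J, f n = some J}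
  let W : ℕ → Set T := fun n => ⋃ i ∈ (f n).getD ∅, β i
  have hfN : ∀ n ∈ N, ∃ J, f n = some J ∧ W n = ⋃ i ∈ J, β i := by
    rintro n ⟨J, hJ⟩
    exact ⟨J, hJ, by simp only [W, hJ, Option.getD_some]⟩
  have hN : ∀ n ∈ N, (Fc r fun F => In F (nm F (trN pn g (W n))) (nm F C)) ∧
      (Fc r fun F => Sub (In F) (nm F (trN pn g (β (e (Nat.unpair n).1))))
          (nm F (trN pn g (W n)))) ∧
        ∀ m ∈ N, m < n → Fc r fun F => nm F (trN pn g (W n)) ≠ nm F (trN pn g (W m)) := by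
    intro n hn
    obtain ⟨J, hJ, hWJ⟩ := hfN n hn
    rcases hf n with ⟨h1, _⟩ | ⟨J', h1, h2, h3, h4⟩
    · rw [hJ] at h1; exact absurd h1 (by simp)
    · rw [hJ] at h1
      obtain rfl : J = J' := Option.some_injective _ h1
      rw [length_hist] at h3
      rw [hWJ]
      refine ⟨h2, h3, fun m hm hmn => ?_⟩
      obtain ⟨J', hJ', hWJ'⟩ := hfN m hm
      rw [hWJ']
      exact h4 J' (mem_hist.2 ⟨m, hmn, hJ'⟩)
  refine ⟨r, hr, N, W, fun n hn => ?_, fun n hn => (hN n hn).1, fun m hm n hn hmn F hF h =>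
    (hN n hn).2.2 m hm hmn F hF h.symm, fun s hs t hgt hfin => ?_⟩
  · obtain ⟨J, _, h⟩ := hfN n hn
    exact ⟨J, h⟩
  · obtain ⟨n₀, hn₀⟩ := hfin.bddAbove
    -- the finite set of the members chosen so far
    have hC' := hC.mono (hs.trans hr)
    have hgt' : ∀ {F : GG P}, F.1.U (pt s) → F.1.U (g t) := fun {F} hF =>
      F.1.mono (pt_le_iff.2 hgt) hF
    let κ : Type := {n : ℕ // n ≤ n₀ ∧ n ∈ N}
    have hκ : _root_.Finite κ := Finite.of_injective (fun k : κ => (⟨k.1, k.2.1⟩ :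
      {n : ℕ // n ≤ n₀})) fun a b h => Subtype.ext (congrArg (fun x => x.1) h)
    have h1 : Fc s fun F => ∃ U, In F U (nm F C) ∧ In F (nm F (pn t)) U ∧
        ¬ In F U (nm F (chk fun k : κ => trN pn g (W k.1))) := by
      intro F hF
      by_contra hcon
      push Not at hcon
      exact (hC' F hF).2 _ ((in_sp hd).2 (hgt' hF)) ⟨_, finite_chk _ F, fun U hU hxU =>
        hcon U hU hxU⟩
    have hRp1 : ∀ U : BSet (RO P), RpP fun F : GG P => In F (nm F U) (nm F C) ∧
        In F (nm F (pn t)) (nm F U) ∧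
        ¬ In F (nm F U) (nm F (chk fun k : κ => trN pn g (W k.1))) := fun U =>
      (RpP.mem U C).and ((RpP.mem _ U).and (RpP.mem U _).not)
    obtain ⟨U, hU⟩ := Fc.name hRp1 h1
    obtain ⟨V, hV⟩ := Fc.name (q := s) (A := fun F V => In F V (nm F (bsN pn g β)) ∧
      In F (nm F (pn t)) V ∧ Sub (In F) V (nm F U)) (fun V => (RpP.mem V _).and ((RpP.mem _ V).and
        (rpSub V U))) (fun F hF => ((hC' F hF).1.1 _ (hU F hF).1).2 _ (hU F hF).2.1)
    obtain ⟨s1, hs1, i, hi⟩ := Fc.chk (x := fun i => trN pn g (β i)) (y := V) (q := s)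
      (fun F hF => (hV F hF).1)
    obtain ⟨F, hF⟩ := exists_gg s1
    have hFs : F.1.U (pt s) := F.1.mono (pt_mono hs1) hF
    have hFr : F.1.U (pt r) := F.1.mono (pt_mono hs) hFs
    have e1 : nm F V = nm F (trN pn g (β i)) := hi F hF
    have h2 := (hV F hFs).2
    rw [e1] at h2
    have hti : t ∈ β i := ((in_tr hd).1 h2.1).2
    -- a late stage at which `i` is treated
    obtain ⟨k, hk⟩ := he i
    set n := Nat.pair k (n₀ + 1) with hn
    have hnn : n₀ < n := lt_of_lt_of_le (Nat.lt_succ_self _) (Nat.right_le_pair k (n₀ + 1))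
    have hen : e (Nat.unpair n).1 = i := by rw [hn, Nat.unpair_pair]; exact hk
    rcases hf n with ⟨_, h3⟩ | ⟨J, h3, _⟩
    · rw [length_hist, hen] at h3
      refine h3 F hFr ⟨nm F U, (hU F hFs).1, h2.2, fun J h4 => ?_⟩
      obtain ⟨j, hj, hjJ⟩ := mem_hist.1 J.2
      have hjN : j ∈ N := ⟨J.1, hjJ⟩
      obtain ⟨J', hJ', hWJ'⟩ := hfN j hjN
      rw [hJ'] at hjJ
      have hJJ : J' = J.1 := Option.some_injective _ hjJ
      rw [← hJJ, ← hWJ'] at h4
      by_cases hjn : j ≤ n₀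
      · apply (hU F hFs).2.2
        rw [h4]
        exact In_chk (fun k : κ => trN pn g (W k.1)) ⟨j, hjn, hjN⟩ F
      · have h5 := (hU F hFs).2.1
        rw [h4, in_tr hd] at h5
        exact hjn (hn₀ ⟨hjN, h5.2⟩)
    · have hnN : n ∈ N := ⟨J, h3⟩
      have h4 := (hN n hnN).2.1 F hFr
      rw [hen] at h4
      have h5 := h4 _ ((in_tr hd).2 ⟨hgt' hFs, hti⟩)
      have h6 := hn₀ ⟨hnN, ((in_tr hd).1 h5).2⟩
      omega

end

end Pool.Agent.SP45
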