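import Pool.Agent.SP45.Spl
import Pool.Agent.SP45.Can

/-!
# The product of the Cantor space and the generic space does not satisfy `Split(Λ, Λ)`
-/

namespace Pool.Agent.SP45

open Classical Set Pool.Agent Pool.Agent.LadderTree Pool.Agent.Forcing Pool.Agent.MAx
open Pool.Agent.BVM (BSet UF eqv memv chk Congr le_of_uf Disc OPair FunOn op on onT)
open Pool.Agent.OG45

/-- the members of the cover -/
def Wm (m : ℕ) : Set ((ℕ → Bool) × (ℕ → ℕ)) :=
  {p | p.1 m = false ∨ ∀ k, m ≤ k → k ≤ p.2 m → p.1 k = true}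

/-- names of the points of the product -/
noncomputable def zn : (ℕ → Bool) × (ℕ → ℕ) → BSet (RO Cond) := prn xn yn

/-- the values of the points of the product -/
noncomputable def zg : (ℕ → Bool) × (ℕ → ℕ) → RO Cond := prg (fun _ => ⊤) gen

theorem disc_zn : Disc zn := disc_prn disc_xn disc_yn

theorem zg_iff {F : GG Cond} {p : (ℕ → Bool) × (ℕ → ℕ)} : F.1.U (zg p) ↔ F.1.U (gen p.2) := by
  show F.1.U (⊤ ⊓ gen p.2) ↔ _
  rw [top_inf_eq]

/-- the family of all rectangles -/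
def rect (i : List Bool × List ℕ) : Set ((ℕ → Bool) × (ℕ → ℕ)) := cyb i.1 ×ˢ cyl i.2

/-- the name of the product -/
noncomputable def ZN : BSet (RO Cond) := spN zn zg

/-- the name of its base -/
noncomputable def ZB : BSet (RO Cond) := bsN zn zg rect

theorem wm_open (m : ℕ) : ∀ t ∈ Wm m, ∃ i, t ∈ rect i ∧ rect i ⊆ Wm m := by
  rintro ⟨x, y⟩ ht
  refine ⟨(prb x (max m (y m) + 1), pre y (m + 1)), ⟨self_memb _ _, self_mem _ _⟩, ?_⟩
  rintro ⟨x', y'⟩ ⟨hx, hy⟩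
  rw [mem_cyb_pre, prb_eq_iff] at hx
  rw [mem_cyl_pre, pre_eq_iff] at hy
  have hx : ∀ j < max m (y m) + 1, x' j = x j := hx
  have hy : ∀ j < m + 1, y' j = y j := hy
  have e1 : y' m = y m := hy m (by omega)
  have e2 : x' m = x m := hx m (by omega)
  show x' m = false ∨ ∀ k, m ≤ k → k ≤ y' m → x' k = true
  rw [e1, e2]
  rcases ht with ht | ht
  · exact Or.inl ht
  · refine Or.inr fun k hk hk' => ?_
    rw [hx k (by omega)]
    exact ht k hk hk'

theorem wm_inf (t : (ℕ → Bool) × (ℕ → ℕ)) : {n | n ∈ (univ : Set ℕ) ∧ t ∈ Wm n}.Infinite := by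
  by_cases h : ∃ N, ∀ k, N ≤ k → t.1 k = true
  · obtain ⟨N, hN⟩ := h
    refine (Set.Ici_infinite N).mono fun n hn => ⟨mem_univ _, Or.inr fun k hk _ => ?_⟩
    exact hN k (le_trans (mem_Ici.1 hn) hk)
  · push Not at h
    rw [infinite_iff_exists_gt]
    intro N
    obtain ⟨k, hk, hk'⟩ := h (N + 1)
    exact ⟨k, ⟨mem_univ _, Or.inl (by simpa using hk')⟩, by omega⟩

/-- the point which is outside the set `Wm n` -/
theorem notMem_wm {n : ℕ} {y : ℕ → ℕ} (hy : n + 1 ≤ y n) {x : ℕ → Bool} (h1 : x n = true)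
    (h2 : x (n + 1) = false) : (x, y) ∉ Wm n := by
  rintro (h | h)
  · have h : x n = false := h
    rw [h1] at h
    exact absurd h (by simp)
  · have h := h (n + 1) (Nat.le_succ n) hy
    have h : x (n + 1) = true := h
    rw [h2] at h
    exact absurd h (by simp)

theorem zn_mem {p : Cond} {x : ℕ → Bool} {y : ℕ → ℕ} (hy : y ∈ p.A) {F : GG Cond}
    (hF : F.1.U (pt p)) {W : Set ((ℕ → Bool) × (ℕ → ℕ))} :
    In F (nm F (zn (x, y))) (nm F (trN zn zg W)) ↔ (x, y) ∈ W := by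
  rw [in_tr disc_zn, zg_iff]
  exact ⟨fun h => h.2, fun h => ⟨gg_gen hy hF, h⟩⟩

/-- the members of the cover are different -/
theorem wm_ne (q : Cond) {m n : ℕ} (hmn : m < n) :
    Fc q fun F => nm F (trN zn zg (Wm m)) ≠ nm F (trN zn zg (Wm n)) := by
  refine Fc.not (RpP.eq _ _) fun r _ hr => ?_
  obtain ⟨s, hs, y, hy, hy'⟩ := r.exists_large fun i => i + 1
  obtain ⟨F, hF⟩ := exists_gg s
  have h1 := hr F (F.1.mono (pt_mono hs) hF)
  let x : ℕ → Bool := fun k => decide (k ≠ m ∧ k ≠ n + 1)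
  have h2 : (x, y) ∈ Wm m := Or.inl (by simp [x])
  have h3 : (x, y) ∉ Wm n := notMem_wm (hy' n) (by simp [x, hmn.ne']) (by simp [x])
  rw [← zn_mem hy hF, h1, zn_mem hy hF] at h2
  exact h3 h2

/-- the members of the cover are proper subsets -/
theorem wm_proper (q : Cond) (n : ℕ) :
    Fc q fun F => nm F (trN zn zg (Wm n)) ≠ nm F (spN zn zg) := by
  refine Fc.not (RpP.eq _ _) fun r _ hr => ?_
  obtain ⟨s, hs, y, hy, hy'⟩ := r.exists_large fun i => i + 1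
  obtain ⟨F, hF⟩ := exists_gg s
  have h1 := hr F (F.1.mono (pt_mono hs) hF)
  let x : ℕ → Bool := fun k => decide (k ≠ n + 1)
  have h3 : (x, y) ∉ Wm n := notMem_wm (hy' n) (by simp [x]) (by simp [x])
  rw [← zn_mem hy hF, h1] at h3
  exact h3 ((zn_mem hy hF).2 (mem_univ _))

theorem space_Y (F : GG Cond) : Space (In F) (nm F (onT ℕ)) (nm F YN) (nm F YB) :=
  gbase_cyl.space disc_yn F

theorem gbase_rect : GBase rect where
  cov t := ⟨([], []), by rw [rect, cyb_nil, cyl_nil, univ_prod_univ]; exact mem_univ t⟩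
  inter i j t hi hj := by
    obtain ⟨k, hk, hki, hkj⟩ := gbase_cyb.inter i.1 j.1 t.1 hi.1 hj.1
    obtain ⟨l, hl, hli, hlj⟩ := gbase_cyl.inter i.2 j.2 t.2 hi.2 hj.2
    exact ⟨(k, l), ⟨hk, hl⟩, prod_mono hki hli, prod_mono hkj hlj⟩
  t1 t t' h := by
    by_cases h1 : t.1 = t'.1
    · obtain ⟨i, hi, hi'⟩ := gbase_cyl.t1 t.2 t'.2 (fun h2 => h (Prod.ext h1 h2))
      exact ⟨([], i), ⟨by rw [cyb_nil]; exact mem_univ _, hi⟩, fun h2 => hi' h2.2⟩
    · obtain ⟨i, hi, hi'⟩ := gbase_cyb.t1 t.1 t'.1 h1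
      exact ⟨(i, []), ⟨hi, by rw [cyl_nil]; exact mem_univ _⟩, fun h2 => hi' h2.1⟩
  reg i t ht := by
    obtain ⟨j, hj, hj'⟩ := gbase_cyb.reg i.1 t.1 ht.1
    obtain ⟨l, hl, hl'⟩ := gbase_cyl.reg i.2 t.2 ht.2
    refine ⟨(j, l), ⟨hj, hl⟩, fun t' ht' => ?_⟩
    by_cases h1 : t'.1 ∈ cyb i.1
    · have h2 : t'.2 ∉ cyl i.2 := fun h2 => ht' ⟨h1, h2⟩
      obtain ⟨k, hk, hk'⟩ := hl' t'.2 h2
      exact ⟨([], k), ⟨by rw [cyb_nil]; exact mem_univ _, hk⟩, fun s hs hs' => hk' _ hs.2 hs'.2⟩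
    · obtain ⟨k, hk, hk'⟩ := hj' t'.1 h1
      exact ⟨(k, []), ⟨hk, by rw [cyl_nil]; exact mem_univ _⟩, fun s hs hs' => hk' _ hs.1 hs'.1⟩

theorem space_Z (F : GG Cond) : Space (In F) (nm F (onT ℕ)) (nm F ZN) (nm F ZB) :=
  gbase_rect.space disc_zn F

/-- the cover is large -/
theorem large_W (q : Cond) : Fc q fun F => Large (In F) (nm F (onT ℕ)) (nm F ZN) (nm F ZB)
    (nm F (famN zn zg Wm univ)) :=
  large_fam sigma_cond disc_zn (fun n _ => wm_open n) (fun _ _ _ _ hmn => wm_ne q hmn)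
    (fun n _ => wm_proper q n) (fun _ _ t _ => wm_inf t)

/-- **The product does not satisfy `Split(Λ, Λ)`.** -/
theorem not_split_Z (F : GG Cond) : ¬ Split (In F) (nm F (onT ℕ)) (nm F ZN) (nm F ZB) := by
  intro hS
  set C : BSet (RO Cond) := famN zn zg Wm univ with hC
  have h1 := hS (nm F C) (gg_all (rpLarge (onT ℕ) ZN ZB C) large_W F)
  refine gg_not (rpSplitC (onT ℕ) ZN ZB C) (fun q hq => ?_) F h1
  -- names for the two parts
  have hR : ∀ V W : BSet (RO Cond), RpP fun F : GG Cond =>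
      (∀ U, In F U (nm F C) ↔ (In F U (nm F V) ∨ In F U (nm F W))) ∧
      (∀ U, In F U (nm F V) → ¬ In F U (nm F W)) ∧
      (∃ V', Sub (In F) V' (nm F V) ∧ Large (In F) (nm F (onT ℕ)) (nm F ZN) (nm F ZB) V') ∧
      ∃ W', Sub (In F) W' (nm F W) ∧
        Large (In F) (nm F (onT ℕ)) (nm F ZN) (nm F ZB) W' := by
    intro V W
    repeat' (first
      | exact RpP.mem _ _ | exact rpLarge _ _ _ _ | exact rpSub _ _
      | refine RpP.and ?_ ?_ | refine RpP.or ?_ ?_ | refine RpP.ex fun _ => ?_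
      | refine RpP.all fun _ => ?_ | refine RpP.iff ?_ ?_
      | refine RpP.not ?_ | refine RpP.imp ?_ ?_)
  obtain ⟨V, hV⟩ := Fc.name (q := q) (A := fun F V => ∃ W,
      (∀ U, In F U (nm F C) ↔ (In F U V ∨ In F U W)) ∧
      (∀ U, In F U V → ¬ In F U W) ∧
      (∃ V', Sub (In F) V' V ∧ Large (In F) (nm F (onT ℕ)) (nm F ZN) (nm F ZB) V') ∧
      ∃ W', Sub (In F) W' W ∧
        Large (In F) (nm F (onT ℕ)) (nm F ZN) (nm F ZB) W') (fun V => RpP.ex fun W => hR V W) hq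
  obtain ⟨W, hW⟩ := Fc.name (q := q) (A := fun F W =>
      (∀ U, In F U (nm F C) ↔ (In F U (nm F V) ∨ In F U W)) ∧
      (∀ U, In F U (nm F V) → ¬ In F U W) ∧
      (∃ V', Sub (In F) V' (nm F V) ∧ Large (In F) (nm F (onT ℕ)) (nm F ZN) (nm F ZB) V') ∧
      ∃ W', Sub (In F) W' W ∧
        Large (In F) (nm F (onT ℕ)) (nm F ZN) (nm F ZB) W') (hR V) hV
  obtain ⟨r, hr, S, hS⟩ := decide_all sigma_cond q (ι := ℕ) (A := fun n F =>
    In F (nm F (trN zn zg (Wm n))) (nm F V)) (fun n => RpP.mem _ _)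
  have hmC : ∀ (F : GG Cond) (n : ℕ), In F (nm F (trN zn zg (Wm n))) (nm F C) := fun F n =>
    In_chk (fun n : (univ : Set ℕ) => trN zn zg (Wm n.1)) ⟨n, mem_univ n⟩ F
  -- the complement of `S` is infinite
  have hSc : Sᶜ.Infinite := by
    intro hfin
    obtain ⟨s, hs, y, hy, -⟩ := r.exists_large fun i => i
    obtain ⟨F, hF⟩ := exists_gg s
    have hFr : F.1.U (pt r) := F.1.mono (pt_mono hs) hF
    have hFq : F.1.U (pt q) := F.1.mono (pt_mono hr) hFr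
    obtain ⟨W', hW'1, hW'2⟩ := (hW F hFq).2.2.2
    have : _root_.Finite (Sᶜ : Set ℕ) := hfin.to_subtype
    refine hW'2.2 (nm F (zn (fun _ => true, y))) ((zn_mem hy hF).2 (mem_univ _))
      ⟨nm F (chk fun n : (Sᶜ : Set ℕ) => trN zn zg (Wm n.1)), finite_chk _ F, fun U hU _ => ?_⟩
    have hUW := hW'1 U hU
    have hUC := ((hW F hFq).1 U).2 (Or.inr hUW)
    refine fc_chk (q := r) (x := fun n : (univ : Set ℕ) => trN zn zg (Wm n.1))
      (A := fun F U => In F U (nm F W) →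
        In F U (nm F (chk fun n : (Sᶜ : Set ℕ) => trN zn zg (Wm n.1))))
      (fun U => (RpP.mem U W).imp (RpP.mem U _)) (fun F hF n hn => ?_) hFr hUC hUW
    have hnS : n.1 ∉ S := fun h => (hW F (F.1.mono (pt_mono hr) hF)).2.1 _
      ((hS n.1 F hF).2 h) hn
    exact In_chk (fun n : (Sᶜ : Set ℕ) => trN zn zg (Wm n.1)) ⟨n.1, hnS⟩ F
  have hnext : ∀ m : ℕ, ∃ k, m ≤ k ∧ k ∉ S := by
    intro m
    obtain ⟨k, hk, hmk⟩ := hSc.exists_gt m
    exact ⟨k, hmk.le, hk⟩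
  choose f hf1 hf2 using hnext
  obtain ⟨s, hs, y, hy, hy'⟩ := r.exists_large f
  obtain ⟨F, hF⟩ := exists_gg s
  have hFr : F.1.U (pt r) := F.1.mono (pt_mono hs) hF
  have hFq : F.1.U (pt q) := F.1.mono (pt_mono hr) hFr
  obtain ⟨V', hV'1, hV'2⟩ := (hW F hFq).2.2.1
  let x : ℕ → Bool := fun k => decide (k ∈ S)
  obtain ⟨U, hU, hzU⟩ := hV'2.1.2.1 (nm F (zn (x, y))) ((zn_mem hy hF).2 (mem_univ _))
  have hUV := hV'1 U hU
  have hUC := ((hW F hFq).1 U).2 (Or.inl hUV)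
  refine fc_chk (q := s) (x := fun n : (univ : Set ℕ) => trN zn zg (Wm n.1))
    (A := fun F U => In F U (nm F V) → ¬ In F (nm F (zn (x, y))) U)
    (fun U => (RpP.mem U V).imp (RpP.mem _ U).not) (fun F hF n hn hz => ?_) hF hUC hUV hzU
  have hnS : n.1 ∈ S := (hS n.1 F (F.1.mono (pt_mono hs) hF)).1 hn
  have hz' := (zn_mem hy hF).1 hz
  rcases hz' with h | h
  · have h : x n.1 = false := h
    simp only [x, hnS, decide_true] at h
    exact absurd h (by simp)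
  · have h := h (f n.1) (hf1 n.1) (hy' n.1)
    have h : x (f n.1) = true := h
    simp only [x, hf2 n.1, decide_false] at h
    exact absurd h (by simp)

end Pool.Agent.SP45
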