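import Pool.Agent.SP45.Comb
import Pool.Agent.OG45.Fc

/-!
# The forcing notion

A condition is a countable set `A` of elements of `ω^ω` together with a branching system `a`.  An
extension enlarges `A` by points which eventually follow `a`, and shrinks `a t` for all but
finitely many nodes `t`.
-/

namespace Pool.Agent.SP45

open Set Pool.Agent.OG45

/-- `y` eventually follows the branching system `a` -/
def Good (a : List ℕ → Set ℕ) (y : ℕ → ℕ) : Prop := ∃ N, ∀ i, N ≤ i → y i ∈ a (pre y i)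

/-- conditions -/
structure Cond where
  /-- the points -/
  A : Set (ℕ → ℕ)
  /-- the branching system -/
  a : List ℕ → Set ℕ
  hA : A.Countable
  ha : ∀ t, (a t).Infinite

theorem Good.mono {a b : List ℕ → Set ℕ} (h : {t | ¬ b t ⊆ a t}.Finite) {y : ℕ → ℕ}
    (hy : Good b y) : Good a y := by
  obtain ⟨N, hN⟩ := hy
  have h1 : {i | ¬ b (pre y i) ⊆ a (pre y i)}.Finite :=
    Set.Finite.preimage (f := fun i => pre y i) (fun i _ j _ hij => pre_inj hij) h
  obtain ⟨M, hM⟩ := h1.bddAbove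
  refine ⟨max N (M + 1), fun i hi => ?_⟩
  have h2 : b (pre y i) ⊆ a (pre y i) := by
    by_contra hcon
    have := hM hcon
    have := (le_max_right N (M + 1)).trans hi
    omega
  exact h2 (hN i ((le_max_left _ _).trans hi))

instance : Preorder Cond where
  le q p := p.A ⊆ q.A ∧ {t | ¬ q.a t ⊆ p.a t}.Finite ∧ ∀ y ∈ q.A, y ∉ p.A → Good p.a y
  le_refl p := ⟨subset_rfl, by simp, fun y h h' => absurd h h'⟩
  le_trans r q p h1 h2 := by
    refine ⟨h2.1.trans h1.1, (h1.2.1.union h2.2.1).subset fun t ht => ?_, fun y hy hy' => ?_⟩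
    · by_contra hcon
      simp only [mem_union, mem_ofPred_eq, not_or, not_not] at hcon
      exact ht (hcon.1.trans hcon.2)
    · by_cases hyq : y ∈ q.A
      · exact h2.2.2 y hyq hy'
      · exact (h1.2.2 y hy hyq).mono h2.2.1

theorem Cond.le_iff {p q : Cond} : q ≤ p ↔ p.A ⊆ q.A ∧ {t | ¬ q.a t ⊆ p.a t}.Finite ∧
    ∀ y ∈ q.A, y ∉ p.A → Good p.a y := Iff.rfl

theorem antitone_of_step {p : ℕ → Cond} (h : ∀ n, p (n + 1) ≤ p n) :
    ∀ m n, m ≤ n → p n ≤ p m := by
  intro m n hmn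
  induction n, hmn using Nat.le_induction with
  | base => exact le_rfl
  | succ n _ ih => exact (h n).trans ih

open Classical in
theorem sigma_cond : SigmaClosed Cond := by
  intro p hp
  have hanti := antitone_of_step hp
  let Q : List ℕ → ℕ → Prop := fun t N => ∀ n < N, (p (n + 1)).a t ⊆ (p n).a t
  let N : List ℕ → ℕ := fun t => Nat.findGreatest (Q t) (Encodable.encode t)
  have hN : ∀ t, Q t (N t) := fun t => Nat.findGreatest_spec (P := Q t) (Nat.zero_le _)
    (fun n hn => absurd hn (Nat.not_lt_zero n))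
  have hsub : ∀ t M, Q t M → ∀ n ≤ M, (p M).a t ⊆ (p n).a t := by
    intro t M hM n hn
    induction M, hn using Nat.le_induction with
    | base => exact subset_rfl
    | succ M hn ih =>
      exact (hM M (Nat.lt_succ_self M)).trans (ih fun k hk => hM k (hk.trans (Nat.lt_succ_self M)))
  refine ⟨⟨⋃ n, (p n).A, fun t => (p (N t)).a t, countable_iUnion fun n => (p n).hA,
    fun t => (p _).ha t⟩, fun n => ⟨subset_iUnion (fun n => (p n).A) n, ?_, ?_⟩⟩
  · have h1 : {t : List ℕ | Encodable.encode t < n}.Finite :=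
      Set.Finite.preimage (f := fun t : List ℕ => Encodable.encode t)
        (Encodable.encode_injective.injOn) (finite_Iio n)
    have h2 : (⋃ k ∈ Iio n, {t | ¬ (p (k + 1)).a t ⊆ (p k).a t}).Finite :=
      (finite_Iio n).biUnion fun k _ => (hp k).2.1
    refine (h1.union h2).subset fun t ht => ?_
    by_contra hcon
    simp only [mem_union, mem_ofPred_eq, mem_iUnion, mem_Iio, exists_prop, not_or, not_lt,
      not_exists, not_and, not_not] at hcon
    refine ht (hsub t _ (hN t) n ?_)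
    exact Nat.le_findGreatest hcon.1 hcon.2
  · intro y hy hy'
    obtain ⟨m, hm⟩ := mem_iUnion.1 hy
    rcases le_total m n with h | h
    · exact absurd ((hanti m n h).1 hm) hy'
    · exact (hanti n m h).2.2 y hm hy'

/-- adding a point -/
theorem Cond.exists_add (p : Cond) {y : ℕ → ℕ} (hy : Good p.a y) : ∃ q ≤ p, y ∈ q.A := by
  refine ⟨⟨insert y p.A, p.a, p.hA.insert _, p.ha⟩, ⟨subset_insert _ _, ?_, ?_⟩,
    mem_insert _ _⟩
  · simp
  · rintro z (rfl | hz) hz'
    · exact hy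
    · exact absurd hz hz'

/-- adding a large point -/
theorem Cond.exists_large (p : Cond) (h : ℕ → ℕ) : ∃ q ≤ p, ∃ y ∈ q.A, ∀ i, h i ≤ y i := by
  obtain ⟨y, -, hy⟩ := exists_path (R := fun _ => True)
    (a := fun t => {k | k ∈ p.a t ∧ h t.length ≤ k}) (fun t _ => by
      obtain ⟨k, hk, hk'⟩ := (p.ha t).exists_gt (h t.length)
      exact ⟨k, ⟨hk, hk'.le⟩, trivial⟩) (t := []) trivial
  obtain ⟨q, hq, hyq⟩ := p.exists_add (y := y) ⟨0, fun i _ => (hy i (Nat.zero_le i)).1.1⟩
  refine ⟨q, hq, y, hyq, fun i => ?_⟩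
  have h1 := (hy i (Nat.zero_le i)).1.2
  rw [length_pre] at h1
  exact h1

/-- **Splitting.** -/
theorem Cond.exists_split (p : Cond) {W : ℕ → Set (ℕ → ℕ)} (hW : ∀ n, Op (W n))
    (h : ∀ q ≤ p, ∀ y ∈ q.A, {n | y ∈ W n}.Infinite) : ∃ q ≤ p, ∃ S : Set ℕ,
      ∀ r ≤ q, ∀ y ∈ r.A, {n | n ∈ S ∧ y ∈ W n}.Infinite ∧ {n | n ∉ S ∧ y ∈ W n}.Infinite := by
  obtain ⟨S, b, hb1, hb2, hb3⟩ := SP45.exists_split hW p.ha p.hA (h p le_rfl) (fun y hy => by
    obtain ⟨q, hq, hyq⟩ := p.exists_add hy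
    exact h q hq y hyq)
  refine ⟨⟨p.A, b, p.hA, hb2⟩, ⟨subset_rfl, ?_, fun y hy hy' => absurd hy hy'⟩, S,
    fun r hr y hy => hb3 y ?_⟩
  · rw [show {t | ¬ b t ⊆ p.a t} = ∅ from eq_empty_of_forall_notMem fun t ht => ht (hb1 t)]
    exact finite_empty
  · by_cases hyp : y ∈ p.A
    · exact Or.inl hyp
    · exact Or.inr (hr.2.2 y hy hyp)

/-- a condition without promises -/
def cond0 : Cond where
  A := ∅
  a := fun _ => univ
  hA := countable_empty
  ha := fun _ => infinite_univ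

end Pool.Agent.SP45
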