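import Pool.Agent.SP45.Lar
import Pool.Agent.SP45.Poset

/-!
# The generic space satisfies `Split(Λ, Λ)`
-/

namespace Pool.Agent.SP45

open Classical Set Pool.Agent Pool.Agent.LadderTree Pool.Agent.Forcing Pool.Agent.MAx
open Pool.Agent.BVM (BSet UF eqv memv chk Congr le_of_uf Disc OPair FunOn op on onT)
open Pool.Agent.OG45

/-- names of the elements of `ω^ω` -/
noncomputable def yn {B : Type} [CompleteBooleanAlgebra B] (y : ℕ → ℕ) : BSet B :=
  (exists_disc B (ℕ → ℕ)).choose y

theorem disc_yn {B : Type} [CompleteBooleanAlgebra B] : Disc (yn : (ℕ → ℕ) → BSet B) :=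
  (exists_disc B (ℕ → ℕ)).choose_spec

/-- the value of `y ∈ Y` -/
noncomputable def gen (y : ℕ → ℕ) : RO Cond := below {p | y ∈ p.A}

theorem forc_gen {p : Cond} {y : ℕ → ℕ} (h : y ∈ p.A) : Forc p (gen y) :=
  forc_below.2 fun q hq => ⟨q, le_rfl, q, hq.1 h, le_rfl⟩

theorem gg_gen {p : Cond} {y : ℕ → ℕ} (h : y ∈ p.A) {F : GG Cond} (hF : F.1.U (pt p)) :
    F.1.U (gen y) := F.1.mono (pt_le_iff.2 (forc_gen h)) hF

theorem exists_gen {p : Cond} {y : ℕ → ℕ} (h : Forc p (gen y)) : ∃ q ≤ p, y ∈ q.A := by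
  obtain ⟨q, hq, r, hr, hqr⟩ := forc_below.1 h p le_rfl
  exact ⟨q, hq, hqr.1 hr⟩

theorem gbase_cyl : GBase cyl where
  cov t := ⟨[], by rw [cyl_nil]; exact mem_univ t⟩
  inter s s' t hs hs' := by
    refine ⟨pre t (max s.length s'.length), self_mem _ _, ?_, ?_⟩
    · rw [mem_cyl] at hs
      rw [← hs, length_pre]
      exact cyl_anti (le_max_left _ _)
    · rw [mem_cyl] at hs'
      rw [← hs', length_pre]
      exact cyl_anti (le_max_right _ _)
  t1 t t' h := by
    obtain ⟨i, hi⟩ := Function.ne_iff.1 h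
    refine ⟨pre t (i + 1), self_mem _ _, fun h' => hi ?_⟩
    rw [mem_cyl_pre, pre_eq_iff] at h'
    exact (h' i (Nat.lt_succ_self i)).symm
  reg s t hs := by
    refine ⟨s, hs, fun t' ht' => ⟨pre t' s.length, self_mem _ _, fun z hz hz' => ht' ?_⟩⟩
    rw [mem_cyl_pre] at hz
    rw [mem_cyl] at hz' ⊢
    rw [← hz, hz']

theorem op_of_cyl {W : Set (ℕ → ℕ)} (h : ∃ J : Set (List ℕ), W = ⋃ s ∈ J, cyl s) : Op W := by
  obtain ⟨J, rfl⟩ := h
  intro y hy
  obtain ⟨s, hs, hys⟩ := mem_iUnion₂.1 hy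
  refine ⟨s.length, ?_⟩
  rw [mem_cyl] at hys
  rw [hys]
  exact subset_biUnion_of_mem (u := cyl) hs

/-- the name of the generic space -/
noncomputable def YN : BSet (RO Cond) := spN yn gen

/-- the name of its base -/
noncomputable def YB : BSet (RO Cond) := bsN yn gen cyl

/-- **The generic space satisfies `Split(Λ, Λ)`.** -/
theorem split_Y (F : GG Cond) : Split (In F) (nm F (onT ℕ)) (nm F YN) (nm F YB) := by
  intro C hC
  obtain ⟨C, rfl⟩ := exists_nm C
  refine gg_imp (rpLarge _ _ _ C) (rpSplitC (onT ℕ) YN YB C) (fun q hq =>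
    Fc.dense (rpSplitC (onT ℕ) YN YB C) fun p hp => ?_) F hC
  obtain ⟨r, hr, N, W, hW, hWC, hne, hinf⟩ := exists_seq sigma_cond disc_yn (hq.mono hp)
  have hrq : r ≤ q := hr.trans hp
  obtain ⟨p', hp', S, hS⟩ := r.exists_split (W := fun n => if n ∈ N then W n else ∅)
    (fun n => by
      by_cases hn : n ∈ N
      · simp only [hn, if_true]
        exact op_of_cyl (hW n hn)
      · simp only [hn, if_false]
        exact fun y hy => absurd hy (notMem_empty y))
    (fun s hs y hy => (hinf s hs y (forc_gen hy)).mono fun n hn => by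
      simp only [mem_ofPred_eq, hn.1, if_true]
      exact hn.2)
  have hW' : ∀ n ∈ N, ∀ t ∈ W n, ∃ i, t ∈ cyl i ∧ cyl i ⊆ W n := by
    intro n hn t ht
    obtain ⟨J, hJ⟩ := hW n hn
    rw [hJ] at ht ⊢
    obtain ⟨s, hs, hts⟩ := mem_iUnion₂.1 ht
    exact ⟨s, hts, subset_biUnion_of_mem (u := cyl) hs⟩
  have hsp : ∀ n ∈ N, Fc p' fun F => nm F (trN yn gen (W n)) ≠ nm F (spN yn gen) := by
    intro n hn F hF h
    have hFr : F.1.U (pt r) := F.1.mono (pt_mono hp') hF
    have h1 := hWC n hn F hFr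
    beta_reduce at h1
    rw [h] at h1
    exact ((hq.mono hrq) F hFr).1.2.2 h1
  have hL1 : Fc p' fun F => Large (In F) (nm F (onT ℕ)) (nm F YN) (nm F YB)
      (nm F (famN yn gen W (N ∩ S))) :=
    large_fam sigma_cond disc_yn (fun n hn => hW' n hn.1)
      (fun m hm n hn hmn => (hne m hm.1 n hn.1 hmn).mono hp') (fun n hn => hsp n hn.1)
      (fun s hs t ht => by
        obtain ⟨s', hs', hts'⟩ := exists_gen ht
        refine (hS s' (hs'.trans hs) t hts').1.mono fun n hn => ?_
        by_cases hnN : n ∈ N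
        · have h2 := hn.2
          simp only [hnN, if_true] at h2
          exact ⟨⟨hnN, hn.1⟩, h2⟩
        · have h2 := hn.2
          simp only [hnN, if_false] at h2
          exact absurd h2 (notMem_empty t))
  have hL2 : Fc p' fun F => Large (In F) (nm F (onT ℕ)) (nm F YN) (nm F YB)
      (nm F (famN yn gen W (N \ S))) :=
    large_fam sigma_cond disc_yn (fun n hn => hW' n hn.1)
      (fun m hm n hn hmn => (hne m hm.1 n hn.1 hmn).mono hp') (fun n hn => hsp n hn.1)
      (fun s hs t ht => by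
        obtain ⟨s', hs', hts'⟩ := exists_gen ht
        refine (hS s' (hs'.trans hs) t hts').2.mono fun n hn => ?_
        by_cases hnN : n ∈ N
        · have h2 := hn.2
          simp only [hnN, if_true] at h2
          exact ⟨⟨hnN, hn.1⟩, h2⟩
        · have h2 := hn.2
          simp only [hnN, if_false] at h2
          exact absurd h2 (notMem_empty t))
  obtain ⟨D, hD⟩ := MAx.exists_sep (b := (⊤ : RO Cond)) C
    (P := fun F U => ¬ In F U (nm F (famN yn gen W (N ∩ S))))
    (fun U => (RpP.mem U (famN yn gen W (N ∩ S))).not)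
  refine ⟨p', hp'.trans hr, fun F hF => ⟨nm F (famN yn gen W (N ∩ S)), nm F D, fun U => ?_,
    fun U hU hU' => ((hD F U).1 hU').2 hU, ⟨_, fun _ h => h, hL1 F hF⟩,
    nm F (famN yn gen W (N \ S)), fun U hU => ?_, hL2 F hF⟩⟩
  · constructor
    · intro hU
      by_cases h : In F U (nm F (famN yn gen W (N ∩ S)))
      · exact Or.inl h
      · exact Or.inr ((hD F U).2 ⟨hU, h⟩)
    · rintro (h | h)
      · exact fc_chk (q := p') (x := fun n : (N ∩ S : Set ℕ) => trN yn gen (W n.1))
          (A := fun F U => In F U (nm F C)) (fun U => RpP.mem U C)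
          (fun F hF n => hWC n.1 n.2.1 F (F.1.mono (pt_mono hp') hF)) hF h
      · exact ((hD F U).1 h).1
  · refine fc_chk (q := p') (x := fun n : (N \ S : Set ℕ) => trN yn gen (W n.1))
      (A := fun F U => In F U (nm F D)) (fun U => RpP.mem U D) (fun F hF n => ?_) hF hU
    refine (hD F _).2 ⟨hWC n.1 n.2.1 F (F.1.mono (pt_mono hp') hF), fun h => ?_⟩
    refine fc_chk (q := p') (x := fun n : (N ∩ S : Set ℕ) => trN yn gen (W n.1))
      (A := fun F U => U ≠ nm F (trN yn gen (W n.1))) (fun U => (RpP.eq U _).not)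
      (fun F hF m h => ?_) hF h rfl
    have hFr : F.1.U (pt r) := F.1.mono (pt_mono hp') hF
    have hmn : m.1 ≠ n.1 := fun e => n.2.2 (e ▸ m.2.2)
    rcases lt_or_gt_of_ne hmn with h1 | h1
    · exact hne m.1 m.2.1 n.1 n.2.1 h1 F hFr h
    · exact hne n.1 n.2.1 m.1 m.2.1 h1 F hFr h.symm

end Pool.Agent.SP45
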